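import Pool.Agent.P.MP_7f6fde_gt.Ex.Homfly

/-! Existence of Kauffman's regular isotopy invariant. -/

namespace Pool.Agent.P.MP_7f6fde_gt.Ex

open Sl Finset LaurentPolynomial Complex

/-- Local signs turning the Dubrovnik form into Kauffman's form. -/
noncomputable def sc : Sl Unit → ℂ
  | cup i _ => (-1) ^ i
  | cap i => (-1) ^ (i + 1)
  | cr _ s => if s then I else -I

noncomputable def chi (D : List (Sl Unit)) : ℂ := (D.map sc).prod

theorem chi_append (A B : List (Sl Unit)) : chi (A ++ B) = chi A * chi B := by simp [chi]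

theorem chi_cons (c : Sl Unit) (B : List (Sl Unit)) : chi (c :: B) = sc c * chi B := by simp [chi]

theorem chi_nil : chi [] = 1 := rfl

theorem sc_at (t : Sl Unit) (i : ℕ) : sc (t.at (i + 2)) = sc (t.at i) := by
  cases t <;> simp [sc, Sl.at, pow_succ]

theorem neg_one_sq_pow (i : ℕ) : ((-1 : ℂ) ^ i) * (-1) ^ i = 1 := by
  rw [← mul_pow]; simp

theorem chi_reg {L R : List (Sl Unit)} (h : Reg L R) : chi L = chi R := by
  cases h with
  | comm s t j =>
    have e : ∀ p, p + 2 + j = p + 0 + j + 2 := fun p => by omega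
    simp only [chi_cons, chi_nil]
    cases s <;> simp only [Sl.out, Sl.inn, e, sc_at] <;> ring
  | zig i o => simp [chi_cons, chi_nil, sc, neg_one_sq_pow]
  | zag i o => simp [chi_cons, chi_nil, sc, pow_succ, neg_one_sq_pow]
  | cupSl i o s => cases s <;> simp [chi_cons, chi_nil, sc, pow_succ]
  | capSl i s => cases s <;> simp [chi_cons, chi_nil, sc, pow_succ]
  | r2 i s => cases s <;> simp [chi_cons, chi_nil, sc]
  | r3 i s => simp [chi_cons, chi_nil, sc]

theorem chi_curl {s : Bool} {L R : List (Sl Unit)} (h : Curl id s L R) :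
    chi L = (if s then I else -I) * chi R := by
  cases h with
  | cap i => simp only [chi_cons, chi_nil, sc]
  | cup i o => simp only [chi_cons, chi_nil, sc]; ring

theorem exists_kauffman : ∃ L, IsKauffman L := by
  obtain ⟨q, hq1, hq⟩ := exists_q
  have h0 : (q : ℂ) ≠ 0 := by exact_mod_cast (by linarith : q ≠ 0)
  have hz : (q : ℂ) - (q : ℂ)⁻¹ ≠ 0 := fun h => hq (h ▸ isAlgebraic_zero)
  let X := fun n => dat q h0 hz (n + 1) n.succ_pos
  let z : ℂˣ := Units.mk0 _ (mul_ne_zero I_ne_zero hz)
  let a : ℕ → ℂˣ := fun n => Units.mk0 _ (mul_ne_zero (neg_ne_zero.2 I_ne_zero) (X n).ha)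
  have hXa : ∀ n, (X n).a = ((q ^ (2 * n + 1) : ℝ) : ℂ) := fun n => by
    change (q : ℂ) ^ (n + 1) * (q : ℂ) ^ (n + 1) * (q : ℂ)⁻¹ = _
    push_cast; field_simp; ring
  have ha : Function.Injective a := by
    intro n k h
    have h1 : -I * (X n).a = -I * (X k).a := congrArg Units.val h
    have h2 := mul_left_cancel₀ (neg_ne_zero.2 I_ne_zero) h1
    rw [hXa, hXa] at h2
    have h3 := pow_right_injective₀ (by linarith) hq1.ne' (ofReal_injective h2)
    omega
  have htr : Transcendental ℤ (z : ℂ) := fun h => hq (by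
    have h1 : ((q : ℂ) - (q : ℂ)⁻¹) ^ 2 = -(z : ℂ) ^ 2 := by simp [z, mul_pow]
    exact IsAlgebraic.of_pow two_pos (h1 ▸ (h.pow 2).neg))
  let φ : LL →+* (ℕ → ℂ) := RingHom.pi fun n => evl z (a n)
  have hφ : Function.Injective φ := ringHom_inj htr ha
  have e1 : ∀ n, φ (T 1) n = -I * (X n).a := fun n => (evl_T z (a n) _).trans (by simp [a])
  have e2 : ∀ n, φ (T (-1)) n = I * (X n).a⁻¹ := fun n =>
    (evl_T z (a n) _).trans (by simp [a, mul_comm])
  have e3 : ∀ n, φ (C (T 1)) n = I * (X n).z := fun n =>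
    (evl_z z (a n) _).trans (by simp [z]; rfl)
  have e4 : ∀ n, φ (C (T (-1))) n = -I * (X n).z⁻¹ := fun n =>
    (evl_z z (a n) _).trans (by simp [z, mul_comm]; rfl)
  let f : List (Sl Unit) → ℕ → ℂ := fun D n => chi D * (X n).toDat.vm.amp D
  let d : ℕ → ℂ := fun n => ((X n).a - (X n).a⁻¹ + (X n).z) / (X n).z
  have hd : ∀ n o, ∑ c, (if (X n).toDat.vm.lab c = o then
      (X n).toDat.vm.u c * (X n).toDat.vm.v c else 0) = d n := fun n o => by
    rw [eq_div_iff (show (X n).z ≠ 0 from hz), mul_comm]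
    simpa only [Dat.vm, if_true, sq, Dat.z] using (X n).tot
  have hδ : ∀ n, -d n ≠ 0 := fun n => by
    refine neg_ne_zero.2 (div_ne_zero ?_ hz)
    have h1 : 1 < q ^ (2 * n + 1) := one_lt_pow₀ hq1 (by omega)
    have h2 : (q ^ (2 * n + 1))⁻¹ < 1 := inv_lt_one_of_one_lt₀ h1
    have h2' : q⁻¹ < 1 := inv_lt_one_of_one_lt₀ hq1
    have h3 : q ^ (2 * n + 1) - (q ^ (2 * n + 1))⁻¹ + (q - q⁻¹) ≠ 0 := by linarith
    rw [hXa]
    change _ + ((q : ℂ) - (q : ℂ)⁻¹) ≠ 0
    exact_mod_cast h3
  have hu : ∀ o, f [cup 0 o, cap 0] = fun n => -d n := fun o => funext fun n => by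
    simp only [f, VM.amp_unknot (hd n) o]
    simp [chi_cons, chi_nil, sc]
  have hreg : ∀ D D', OneMove id Reg D D' → f D = f D' := fun D D' h =>
    funext fun n => by
      simp only [f, (X n).toDat.rg.amp_reg h]
      obtain ⟨-, -, A, B, L, R, h, rfl, rfl⟩ := h
      simp only [chi_append, chi_reg h]
  have hcurl : ∀ s D D', OneMove id (Curl id s) D D' →
      ∀ n, f D n = φ (T (if s then -1 else 1)) n * f D' n := fun s D D' h n => by
    have h1 : chi D = (if s then I else -I) * chi D' := by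
      obtain ⟨-, -, A, B, L, R, h, rfl, rfl⟩ := h
      simp only [chi_append, chi_curl h]; ring
    cases s
    · simp only [f, h1, (X n).toDat.rg.amp_curl (X n).toDat.curlF h, Bool.false_eq_true, if_false,
        e1]
      ring
    · simp only [f, h1, (X n).toDat.rg.amp_curl (X n).toDat.curlT h, if_true, e2]
      ring
  have hsk : ∀ (x y : Unit) A B i r t n, run id [] A = some r → r.drop i = x :: y :: t →
      f (A ++ cr i true :: B) n + f (A ++ cr i false :: B) n =
      I * (X n).z * (f (A ++ B) n + f (A ++ cap i :: cup i y :: B) n) :=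
    fun x y A B i r t n hA hr => by
      have h1 := (X n).toDat.pl.skein (x := x) (y := y) (p := 1) (p' := -1) (z1 := (X n).z)
        (z2 := -(X n).z) (fun c d k l _ _ => by
          simp only [Dat.vm, Dat.skein, and_true]
          split_ifs <;> ring) (B := B) hA hr
      have h2 := neg_one_sq_pow i
      simp only [f, chi_append, chi_cons, sc, if_true, Bool.false_eq_true, if_false, pow_succ]
      linear_combination (chi A * chi B * I) * h1 + (I * (X n).z * chi A * chi B *
        (X n).toDat.vm.amp (A ++ cap i :: cup i y :: B)) * h2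
  obtain ⟨P, hP1, hP2⟩ := exists_poly (fl := id) φ f _ hu (by
    let _ := Module.compHom (ℕ → ℂ) φ
    have sm : ∀ (c : LL) (x : ℕ → ℂ) n, (c • x) n = φ c n * x n := fun _ _ _ => rfl
    refine ⟨fun _ => rfl, hreg, fun s => ⟨_, fun D D' h => funext (hcurl s D D' h)⟩,
      ⟨(T 1 + T (-1)) * C (T (-1)) - 1, fun A B i o h => funext fun n => ?_⟩, fun x y s => ?_⟩
    · have h1 := (X n).toDat.pl.amp_eqv (VM.loop (hd n) i o) h
      have h2 := neg_one_sq_pow i
      have h3 : (X n).z ≠ 0 := hz
      have h4 : φ ((T 1 + T (-1)) * C (T (-1)) - 1) n = -d n := by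
        simp only [map_mul, map_sub, map_add, map_one, Pi.mul_apply, Pi.sub_apply, Pi.add_apply,
          Pi.one_apply, e1, e2, e4, d, div_eq_mul_inv]
        linear_combination (((X n).a - (X n).a⁻¹) * (X n).z⁻¹) * I_sq + mul_inv_cancel₀ h3
      rw [List.append_nil] at h1
      simp only [sm, h4, f, h1, chi_append, chi_cons, chi_nil, sc, pow_succ]
      linear_combination (-(chi A * chi B * d n * (X n).toDat.vm.amp (A ++ B))) * h2
    · refine ⟨-1, C (T 1), C (T 1), fun h => absurd rfl h, fun h => absurd rfl h,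
        fun A B i r t hA hr _ => funext fun n => ?_⟩
      have h1 := hsk x y A B i r t n hA hr
      simp only [Pi.add_apply, sm, e3, map_neg, map_one, Pi.neg_apply, Pi.one_apply]
      cases s
      · simp only [Bool.not_false]; linear_combination h1
      · simp only [Bool.not_true]; linear_combination h1)
  refine ⟨P, fun D D' h => hP1 _ _ (hreg _ _ h), ?_, fun A B i h => ?_, fun s D D' h => ?_⟩
  · refine cancel_poly hφ hδ fun n => ?_
    have := hP2 [cup 0 (), cap 0] (by simp [closed_iff, run_cons, run_nil, step]) (by simp)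
    rw [hu] at this
    simpa using (congrFun this n).symm
  · have h' := h
    rw [closed_iff, run_append, Option.bind_eq_some_iff] at h'
    obtain ⟨r, hA, h'⟩ := h'
    rw [run_cons, Option.bind_eq_some_iff] at h'
    obtain ⟨r', h', -⟩ := h'
    obtain ⟨x, y, t, hr, -⟩ := step_cr h'
    obtain ⟨h1, h2, h3, h4⟩ := closed_parts (fun _ => rfl) hA hr h
    refine cancel_poly hφ hδ fun n => ?_
    have h5 := hsk x y A B i r t n hA hr
    rw [hP2 _ (h2 true) (by simp), hP2 _ (h2 false) (by simp), hP2 _ (h3 rfl) (by simp [h1]),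
      hP2 _ (h4 rfl) (by simp)] at h5
    simp only [map_mul, map_add, Pi.mul_apply, Pi.add_apply, e3] at h5 ⊢
    linear_combination h5
  · have h5 := hcurl s D D' h
    obtain ⟨h1, h2, A, B, L, R, h, rfl, rfl⟩ := h
    refine cancel_poly hφ hδ fun n => ?_
    have h6 := h5 n
    rw [hP2 _ h1 (by cases h <;> simp), hP2 _ h2 (by cases h <;> simp)] at h6
    simp only [map_mul, Pi.mul_apply] at h6 ⊢
    linear_combination h6

end Pool.Agent.P.MP_7f6fde_gt.Ex
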