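import Pool.Agent.P.MP_7f6fde_gt.Ex.Inst

/-! Existence of the HOMFLYPT polynomial. -/

namespace Pool.Agent.P.MP_7f6fde_gt.Ex

open Sl Finset LaurentPolynomial

section general

variable {α : Type} [DecidableEq α] {fl : α → α}

theorem exists_poly (φ : LL →+* (ℕ → ℂ)) (f : List (Sl α) → ℕ → ℂ) (δ : ℕ → ℂ)
    (hu : ∀ o, f [cup 0 o, cap 0] = δ)
    (H : letI := Module.compHom (ℕ → ℂ) φ; Skein LL fl f) :
    ∃ P : List (Sl α) → LL, (∀ D D', f D = f D' → P D = P D') ∧
      ∀ D, Closed fl D → D ≠ [] → f D = φ (P D) * δ := by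
  classical
  let _ := Module.compHom (ℕ → ℂ) φ
  let g : (ℕ → ℂ) → LL := fun x => if h : ∃ c, x = φ c * δ then h.choose else 0
  refine ⟨fun D => g (f D), fun D D' h => by simp only [h], fun D h1 h2 => ?_⟩
  obtain ⟨o, c, hc⟩ := closed_mul H h1 h2
  have h3 : ∃ c, f D = φ c * δ := ⟨c, by rw [hc, hu]; rfl⟩
  simp only [g, dif_pos h3]
  exact h3.choose_spec

theorem cancel_poly {φ : LL →+* (ℕ → ℂ)} (hφ : Function.Injective φ) {δ : ℕ → ℂ}
    (hδ : ∀ n, δ n ≠ 0) {c c' : LL} (h : ∀ n, φ c n * δ n = φ c' n * δ n) : c = c' :=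
  hφ (funext fun n => mul_right_cancel₀ (hδ n) (h n))

theorem ringHom_inj {z : ℂˣ} (hz : Transcendental ℤ (z : ℂ)) {a : ℕ → ℂˣ}
    (ha : Function.Injective a) : Function.Injective (RingHom.pi fun n => evl z (a n)) := by
  rw [injective_iff_map_eq_zero]
  intro P h
  refine laurent_zero _ (eval_inj hz) P (Set.infinite_range_of_injective ha) ?_
  rintro _ ⟨n, rfl⟩
  exact congrFun h n

theorem closed_parts (hfl : Function.Involutive fl) {A B : List (Sl α)} {i : ℕ} {s : Bool}
    {r t : List α} {x y : α} (hA : run fl [] A = some r) (hr : r.drop i = x :: y :: t)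
    (h : Closed fl (A ++ cr i s :: B)) :
    A ≠ [] ∧ (∀ s', Closed fl (A ++ cr i s' :: B)) ∧ (x = y → Closed fl (A ++ B)) ∧
      (y = fl x → Closed fl (A ++ cap i :: cup i y :: B)) := by
  simp only [closed_iff, run_append, hA, Option.bind_some] at h ⊢
  have h1 : run fl (r.take i ++ y :: x :: t) B = some [] := by
    simpa only [run_cons, step, hr, Option.bind_some] using h
  refine ⟨?_, fun s' => ?_, ?_, ?_⟩
  · rintro rfl
    obtain rfl := Option.some.inj hA
    simp at hr
  · simpa only [run_cons, step, hr, Option.bind_some] using h1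
  · rintro rfl
    rwa [← hr, List.take_append_drop] at h1
  · rintro rfl
    have := run_append fl r [cap i, cup i (fl x)] B
    rw [run_capcup hfl hr] at this
    exact this.trans h1

end general

theorem exists_homfly : ∃ P, IsHomfly P := by
  obtain ⟨q, hq1, hq⟩ := exists_q
  have h0 : (q : ℂ) ≠ 0 := by exact_mod_cast (by linarith : q ≠ 0)
  have hz : (q : ℂ) - (q : ℂ)⁻¹ ≠ 0 := fun h => hq (h ▸ isAlgebraic_zero)
  let X := fun n => dat q h0 hz (n + 1) n.succ_pos
  let z : ℂˣ := Units.mk0 _ hz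
  let a : ℕ → ℂˣ := fun n => (Units.mk0 _ (X n).hb)⁻¹
  have ha : Function.Injective a := by
    intro n k h
    have h1 : (q : ℂ) ^ (n + 1) = (q : ℂ) ^ (k + 1) := congrArg Units.val (inv_injective h)
    have h2 : q ^ (n + 1) = q ^ (k + 1) := by exact_mod_cast h1
    simpa using pow_right_injective₀ (by linarith) hq1.ne' h2
  let φ : LL →+* (ℕ → ℂ) := RingHom.pi fun n => evl z (a n)
  have hφ : Function.Injective φ := ringHom_inj hq ha
  have e1 : ∀ n, φ (T 1) n = (X n).b⁻¹ := fun n => (evl_T z (a n) _).trans (by simp [a])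
  have e2 : ∀ n, φ (T (-1)) n = (X n).b := fun n => (evl_T z (a n) _).trans (by simp [a])
  have e3 : ∀ n, φ (C (T 1)) n = (X n).z := fun n =>
    (evl_z z (a n) _).trans (by simp [z]; rfl)
  have e4 : ∀ n, φ (C (T (-1))) n = (X n).z⁻¹ := fun n =>
    (evl_z z (a n) _).trans (by simp [z]; rfl)
  let f : List (Sl Bool) → ℕ → ℂ := fun D n => (X n).vm.amp D
  let δ : ℕ → ℂ := fun n => ((X n).b - (X n).b⁻¹) / (X n).z
  have hδ : ∀ n, δ n ≠ 0 := fun n => by
    refine div_ne_zero ?_ hz
    have h1 : 1 < q ^ (n + 1) := one_lt_pow₀ hq1 n.succ_ne_zero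
    have h2 : (q ^ (n + 1))⁻¹ < 1 := inv_lt_one_of_one_lt₀ h1
    have h3 : q ^ (n + 1) - (q ^ (n + 1))⁻¹ ≠ 0 := by linarith
    change (q : ℂ) ^ (n + 1) - ((q : ℂ) ^ (n + 1))⁻¹ ≠ 0
    exact_mod_cast h3
  have hu : ∀ o, f [cup 0 o, cap 0] = δ := fun o => funext fun n => VM.amp_unknot (X n).loop o
  have hreg : ∀ D D', OneMove not Reg D D' → f D = f D' := fun D D' h =>
    funext fun n => (X n).rg.amp_reg h
  have hcurl : ∀ s D D', OneMove not (Curl not s) D D' → f D = f D' := fun s D D' h =>
    funext fun n => by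
      cases s
      · exact ((X n).rg.amp_curl (X n).curlF h).trans (one_mul _)
      · exact ((X n).rg.amp_curl (X n).curlT h).trans (one_mul _)
  have hsk : ∀ (x y : Bool) A B i r t n, run not [] A = some r → r.drop i = x :: y :: t →
      (if x = y then (X n).b else -(X n).b⁻¹) * f (A ++ cr i true :: B) n +
        (if x = y then -(X n).b⁻¹ else (X n).b) * f (A ++ cr i false :: B) n =
      (if x = y then (X n).z else 0) * f (A ++ B) n +
        (if x = y then 0 else (X n).z) * f (A ++ cap i :: cup i y :: B) n :=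
    fun x y A B i r t n hA hr => (X n).pl.skein ((X n).skein x y) hA hr
  obtain ⟨P, hP1, hP2⟩ := exists_poly (fl := not) φ f δ hu (by
    let _ := Module.compHom (ℕ → ℂ) φ
    have sm : ∀ (c : LL) (x : ℕ → ℂ) n, (c • x) n = φ c n * x n := fun _ _ _ => rfl
    refine ⟨Bool.not_not, hreg, fun s => ⟨1, fun D D' h => by rw [one_smul]; exact hcurl s D D' h⟩,
      ⟨(T (-1) - T 1) * C (T (-1)), fun A B i o h => funext fun n => ?_⟩, fun x y s => ?_⟩
    · have := (X n).pl.amp_eqv (VM.loop (X n).loop i o) h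
      rw [sm, map_mul, map_sub, Pi.mul_apply, Pi.sub_apply, e1, e2, e4]
      simpa [div_eq_mul_inv] using this
    · let u : LL := if s = (x == y) then T 1 else -T (-1)
      refine ⟨u * u, if x = y then u * C (T 1) else 0, if x = y then 0 else u * C (T 1),
        fun h => if_neg h, fun h => if_pos (by cases x <;> cases y <;> simp_all),
        fun A B i r t hA hr _ => funext fun n => ?_⟩
      have h1 := hsk x y A B i r t n hA hr
      have hb := (X n).hb
      simp only [Pi.add_apply, sm, u]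
      cases s <;> cases x <;> cases y <;>
        simp [e1, e2, e3] at h1 ⊢ <;> field_simp at h1 ⊢ <;>
        first | linear_combination h1 | linear_combination -h1)
  refine ⟨P, fun D D' h => hP1 _ _ ?_, fun o => ?_, fun A B i r x y t hA hr h => ?_⟩
  · induction h with
    | rel D D' h =>
      obtain ⟨h1, h2, A, B, L, R, h | ⟨s, h⟩, h3⟩ := h
      exacts [hreg _ _ ⟨h1, h2, A, B, L, R, h, h3⟩, hcurl s _ _ ⟨h1, h2, A, B, L, R, h, h3⟩]
    | refl => rfl
    | symm _ _ _ ih => exact ih.symm
    | trans _ _ _ _ _ h1 h2 => exact h1.trans h2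
  · refine cancel_poly hφ hδ fun n => ?_
    have := hP2 [cup 0 o, cap 0] (by simp [closed_iff, run_cons, run_nil, step]) (by simp)
    rw [hu] at this
    simpa using (congrFun this n).symm
  · obtain ⟨h1, h2, h3, h4⟩ := closed_parts Bool.not_not hA hr h
    refine cancel_poly hφ hδ fun n => ?_
    have h5 := hsk x y A B i r t n hA hr
    rw [hP2 _ (h2 true) (by simp), hP2 _ (h2 false) (by simp)] at h5
    simp only [map_mul, map_sub, Pi.mul_apply, Pi.sub_apply, e1, e2, e3]
    by_cases hxy : x = y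
    · subst hxy
      rw [hP2 _ (h3 rfl) (by simp [h1])] at h5
      simp only [if_true, Pi.mul_apply, beq_self_eq_true, bne_self_eq_false, List.append_nil]
        at h5 ⊢
      linear_combination h5
    · have h6 : y = !x := by cases x <;> cases y <;> simp_all
      rw [hP2 _ (h4 h6) (by simp)] at h5
      have h7 : (x == y) = false := by simpa using hxy
      have h8 : (x != y) = true := by simpa using hxy
      simp only [hxy, if_false, Pi.mul_apply, h7, h8, List.append_assoc, List.cons_append,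
        List.nil_append] at h5 ⊢
      linear_combination h5

end Pool.Agent.P.MP_7f6fde_gt.Ex
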