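import Pool.Agent.P.MP_7f6fde_gt.Ex.Lin

/-! The concrete models and the evaluation maps on two-variable Laurent polynomials. -/

namespace Pool.Agent.P.MP_7f6fde_gt.Ex

open Finset LaurentPolynomial

noncomputable def wt (q : ℂ) (n j : ℕ) : ℂ :=
  q ^ (if n ≤ j then (j : ℤ) - n else (j : ℤ) - n + 1)

theorem wt_sum {q : ℂ} (hq : q ≠ 0) {n : ℕ} (hn : 0 < n) (x : ℕ) :
    (q - q⁻¹) * ∑ j ∈ range x, wt q n j ^ 2 =
      q⁻¹ * wt q n x ^ 2 + (if n ≤ x then q - q⁻¹ else 0) - (q ^ n * q ^ n * q⁻¹)⁻¹ := by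
  induction x with
  | zero =>
    have : ¬ n ≤ 0 := by omega
    simp only [range_zero, sum_empty, wt, this, if_false, Nat.cast_zero, zero_sub, zpow_add₀ hq,
      zpow_neg, zpow_natCast, zpow_one]
    field_simp; ring
  | succ x ih =>
    rw [sum_range_succ, mul_add, ih]
    by_cases h : n = x + 1
    · subst h
      have h1 : ¬ x + 1 ≤ x := by omega
      simp [wt, h1]
    · have h1 : n ≤ x + 1 ↔ n ≤ x := by omega
      have h2 : wt q n (x + 1) = q * wt q n x := by
        simp only [wt, h1]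
        rw [← zpow_one_add₀ hq]
        congr 1
        split_ifs <;> push_cast <;> ring
      simp only [h1, h2]
      field_simp; ring

theorem fin_sum_lt (N x : ℕ) (hx : x ≤ N) (F : ℕ → ℂ) :
    ∑ k : Fin N, (if (k : ℕ) < x then F k else 0) = ∑ j ∈ range x, F j := by
  rw [Fin.sum_univ_eq_sum_range (fun j => if j < x then F j else 0), ← sum_filter]
  congr 1
  ext j
  simp only [mem_filter, mem_range]
  omega

/-- The model with `2 n` colours. -/
noncomputable def dat (q : ℂ) (hq : q ≠ 0) (hz : q - q⁻¹ ≠ 0) (n : ℕ) (hn : 0 < n) :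
    DatL (Fin (n + n)) where
  du := Fin.rev
  w c := wt q n c
  q := q
  a := q ^ n * q ^ n * q⁻¹
  hq := hq
  du_du := Fin.rev_rev
  du_lt c d := Fin.rev_lt_rev
  du_ne c h := by
    have := congrArg Fin.val h
    have := c.2
    simp only [Fin.val_rev] at *
    omega
  ww c := by
    have := c.2
    simp only [wt, ← zpow_add₀ hq, Fin.val_rev]
    have e : ((if n ≤ n + n - (c + 1) then ((n + n - (c + 1) : ℕ) : ℤ) - n else
        ((n + n - (c + 1) : ℕ) : ℤ) - n + 1) +
        if n ≤ c then ((c : ℕ) : ℤ) - n else ((c : ℕ) : ℤ) - n + 1) = 0 := by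
      split_ifs <;> omega
    rw [e, zpow_zero]
  key x := by
    have := x.2
    have e : x.rev < x ↔ n ≤ x := by
      rw [Fin.lt_def, Fin.val_rev]; omega
    simp only [e, ← wt_sum hq hn, Fin.lt_def]
    rw [fin_sum_lt _ _ x.2.le fun j => wt q n j ^ 2]
  tot := by
    rw [Fin.sum_univ_eq_sum_range (fun j => wt q n j ^ 2), wt_sum hq hn]
    simp [wt]; ring
  b := q ^ n
  hb := pow_ne_zero _ hq
  hz := hz
  hab := by field_simp
  low := by
    have e : ∀ k : Fin (n + n), (if k.rev < k then 0 else wt q n k ^ 2) =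
        if (k : ℕ) < n then wt q n k ^ 2 else 0 := fun k => by
      have := k.2
      have e : k.rev < k ↔ ¬ (k : ℕ) < n := by
        rw [Fin.lt_def, Fin.val_rev]; omega
      simp only [e, ite_not]
    simp only [e]
    rw [fin_sum_lt _ _ (by omega) fun j => wt q n j ^ 2, wt_sum hq hn]
    simp [wt]

/-- Evaluation at `a` and `z`. -/
noncomputable def evl (z a : ℂˣ) : LL →+* ℂ :=
  LaurentPolynomial.eval₂ (LaurentPolynomial.eval₂ (Int.castRingHom ℂ) z) a

theorem evl_T (z a : ℂˣ) (k : ℤ) : evl z a (T k) = (a : ℂ) ^ k := by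
  simp [evl]

theorem evl_z (z a : ℂˣ) (k : ℤ) : evl z a (C (T k)) = (z : ℂ) ^ k := by
  simp [evl]

theorem laurent_zero {S : Type} [CommRing S] (φ : S →+* ℂ) (hφ : Function.Injective φ)
    (P : LaurentPolynomial S) {A : Set ℂˣ} (hA : A.Infinite)
    (h : ∀ a ∈ A, LaurentPolynomial.eval₂ φ a P = 0) : P = 0 := by
  obtain ⟨k, p, hp⟩ := exists_T_pow P
  have h1 : p.map φ = 0 := by
    refine Polynomial.eq_zero_of_infinite_isRoot _ ((hA.image Units.val_injective.injOn).mono ?_)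
    rintro _ ⟨a, ha, rfl⟩
    have := congrArg (LaurentPolynomial.eval₂ φ a) hp
    rw [map_mul, h a ha, zero_mul, eval₂_toLaurent] at this
    simpa [Polynomial.IsRoot, Polynomial.eval_map] using this
  have h2 : p = 0 := (Polynomial.map_eq_zero_iff hφ).1 h1
  rw [h2, map_zero] at hp
  exact (isUnit_T k).mul_left_eq_zero.1 hp.symm

theorem eval_inj {z : ℂˣ} (hz : Transcendental ℤ (z : ℂ)) :
    Function.Injective (LaurentPolynomial.eval₂ (Int.castRingHom ℂ) z) := by
  rw [injective_iff_map_eq_zero]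
  intro P h
  obtain ⟨k, p, hp⟩ := exists_T_pow P
  have h1 := congrArg (LaurentPolynomial.eval₂ (Int.castRingHom ℂ) z) hp
  rw [map_mul, h, zero_mul, eval₂_toLaurent] at h1
  have h2 : p = 0 := by
    by_contra h3
    exact hz ⟨p, h3, h1⟩
  rw [h2, map_zero] at hp
  exact (isUnit_T k).mul_left_eq_zero.1 hp.symm

/-- A real number `q > 1` with `q - q⁻¹` transcendental. -/
theorem exists_q : ∃ q : ℝ, 1 < q ∧ Transcendental ℤ ((q : ℂ) - (q : ℂ)⁻¹) := by
  obtain ⟨t, ht, h⟩ : ∃ t : ℝ, 0 < t ∧ Transcendental ℤ t := by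
    have h := transcendental_liouvilleNumber (le_refl 2)
    rcases lt_trichotomy (liouvilleNumber ((2 : ℕ) : ℝ)) 0 with h1 | h1 | h1
    · exact ⟨_, neg_pos.2 h1, fun h2 => h (by simpa using h2.neg)⟩
    · exact absurd (h1 ▸ isAlgebraic_zero) h
    · exact ⟨_, h1, h⟩
  have hs : 2 < √(t ^ 2 + 4) := Real.lt_sqrt_of_sq_lt (by nlinarith)
  have hs2 : √(t ^ 2 + 4) ^ 2 = t ^ 2 + 4 := Real.sq_sqrt (by positivity)
  refine ⟨(t + √(t ^ 2 + 4)) / 2, by linarith, ?_⟩
  have e : (t + √(t ^ 2 + 4)) / 2 - ((t + √(t ^ 2 + 4)) / 2)⁻¹ = t := by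
    have : t + √(t ^ 2 + 4) ≠ 0 := by positivity
    field_simp
    linear_combination hs2
  rw [← Complex.ofReal_inv, ← Complex.ofReal_sub, e]
  exact fun h2 => h ((isAlgebraic_algebraMap_iff (A := ℂ) Complex.ofReal_injective).1 h2)

end Pool.Agent.P.MP_7f6fde_gt.Ex
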