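import Pool.Agent.P.MP_7f6fde_gt.Ex.YB

/-! The oriented vertex model as the label-preserving part of the orthogonal one. -/

namespace Pool.Agent.P.MP_7f6fde_gt.Ex

open Sl Finset

/-- Data of the oriented model. -/
structure DatL (I : Type) [LinearOrder I] [Fintype I] extends Dat I where
  b : ℂ
  hb : b ≠ 0
  hz : q - q⁻¹ ≠ 0
  hab : a * q = b ^ 2
  low : (q - q⁻¹) * ∑ k, (if du k < k then 0 else w k ^ 2) = q - a⁻¹

/-- Constraint on the labels around a crossing of non-zero weight. -/
def Q (s x y k l : Bool) : Prop :=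
  (l = x ↔ k = y) ∧ if s then k ≤ y ∧ x ≤ l else y ≤ k ∧ l ≤ x

instance (s x y k l : Bool) : Decidable (Q s x y k l) := by unfold Q; infer_instance

theorem Q_two : ∀ s c d k l p n : Bool, Q s c d k l → Q (!s) k l p n →
    ((l = c ∧ n = k) ↔ p = c) ∧ (p = c → l = c ∧ k = d) := by decide

theorem Q_121 : ∀ s c d e k l y p n r : Bool, Q s c d k l → Q s l e y r → Q s k y p n →
    ((l = c ∧ r = l ∧ n = k) ↔ (r = c ∧ p = e)) ∧ (r = c ∧ p = e → l = c ∧ k = d ∧ y = e) := by
  decide

theorem Q_212 : ∀ s c d e k l y p n r : Bool, Q s d e k l → Q s c k p y → Q s y l n r →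
    ((l = d ∧ y = c ∧ r = y) ↔ (r = c ∧ p = e)) ∧ (r = c ∧ p = e → l = d ∧ k = e ∧ y = c) := by
  decide

variable {I : Type} [LinearOrder I] [Fintype I]

namespace DatL

variable (X : DatL I)

def lab (c : I) : Bool := decide (X.du c < c)

theorem lab_du (c : I) : X.lab (X.du c) = !X.lab c := by
  have := X.du_ne c
  simp only [lab, X.du_du]
  rcases lt_trichotomy c (X.du c) with h | h | h
  · simp [h, not_lt_of_gt h]
  · exact absurd h.symm this
  · simp [h, not_lt_of_gt h]

theorem lab_mono {c d : I} (h : c ≤ d) : X.lab c ≤ X.lab d := by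
  rw [Bool.le_iff_imp]
  simp only [lab, decide_eq_true_eq]
  intro h1
  have : ¬ X.du c < X.du d := by rw [X.du_lt]; order
  order

theorem labQ {s : Bool} {c d k l : I} (h : X.G s c d k l ≠ 0) :
    Q s (X.lab c) (X.lab d) (X.lab k) (X.lab l) := by
  refine ⟨?_, ?_⟩
  · rcases X.tri h with ⟨rfl, rfl⟩ | ⟨-, -, ⟨rfl, rfl⟩ | ⟨rfl, rfl⟩⟩
    · simp
    · exact eq_comm
    · simp only [X.lab_du]; cases X.lab k <;> cases X.lab c <;> simp
  · cases s
    · rcases X.triF h with ⟨rfl, rfl⟩ | ⟨h1, h2⟩
      · simp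
      · exact ⟨X.lab_mono h1.le, X.lab_mono h2.le⟩
    · rcases X.triT h with ⟨rfl, rfl⟩ | ⟨h1, h2⟩
      · simp
      · exact ⟨X.lab_mono h1.le, X.lab_mono h2.le⟩

noncomputable def be (s x y : Bool) : ℂ := if s = (x == y) then X.b⁻¹ else X.b

noncomputable def mu (x : Bool) : ℂ := if x then X.q * X.b⁻¹ else 1

theorem mu_ne (x : Bool) : X.mu x ≠ 0 := by cases x <;> simp [mu, X.hq, X.hb]

noncomputable def N (s : Bool) (c d k l : I) : ℂ :=
  (if X.lab l = X.lab c then X.be s (X.lab c) (X.lab d) else 0) * X.G s c d k l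

/-- The oriented vertex model. -/
noncomputable def vm : VM Bool I :=
  ⟨X.lab, X.du, fun c => X.w c * X.mu (X.lab c), fun c => X.w c * (X.mu (!X.lab c))⁻¹, X.N⟩

theorem pl : X.vm.Pl not := by
  refine ⟨X.du_du, X.lab_du, fun c => ?_, fun s c d k l h => ?_, fun s x k l n => ?_⟩
  · simp only [vm, X.lab_du]
    have := X.mu_ne (!X.lab c)
    field_simp
    exact X.ww c
  · simp only [vm, N, ne_eq, mul_eq_zero, not_or] at h ⊢
    have h1 : X.lab l = X.lab c := by
      by_contra h2
      exact h.1 (if_neg h2)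
    exact ⟨(X.labQ h.2).1.1 h1, h1⟩
  · simp only [vm, N, X.lab_du]
    have h := X.rot s x k l n
    by_cases hG : X.G s x (X.du n) k l = 0
    · rw [hG, mul_zero] at h
      rw [hG]
      linear_combination (X.mu (X.lab k) * if X.lab n = !X.lab k then
        X.be (!s) (!X.lab k) (X.lab x) else 0) * h
    · have h1 := (X.labQ hG).1
      rw [X.lab_du] at h1
      by_cases h2 : X.lab l = X.lab x
      · rw [h1.1 h2, if_pos h2, if_pos (by simp)]
        have : X.be (!s) (!!X.lab n) (X.lab x) = X.be s (X.lab x) (!X.lab n) := by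
          cases s <;> cases X.lab n <;> cases X.lab x <;> simp [be]
        rw [this]
        linear_combination (X.mu (!X.lab n) * X.be s (X.lab x) (!X.lab n)) * h
      · rw [if_neg h2, if_neg (fun h3 => h2 (h1.2 (by rw [h3]; simp)))]; simp

theorem two (s : Bool) (c d p n : I) : ∑ k, ∑ l, X.N s c d k l * X.N (!s) k l p n =
    if p = c ∧ n = d then 1 else 0 := by
  have e : ∀ k l, X.N s c d k l * X.N (!s) k l p n =
      (if X.lab p = X.lab c then 1 else 0) * (X.G s c d k l * X.G (!s) k l p n) := fun k l => by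
    by_cases h1 : X.G s c d k l = 0
    · simp [N, h1]
    by_cases h2 : X.G (!s) k l p n = 0
    · simp [N, h2]
    obtain ⟨h3, h4⟩ := Q_two _ _ _ _ _ _ _ (X.labQ h1) (X.labQ h2)
    unfold N
    by_cases h : X.lab p = X.lab c
    · rw [if_pos h, if_pos (h3.2 h).1, if_pos (h3.2 h).2, (h4 h).1, (h4 h).2]
      have : X.be s (X.lab c) (X.lab d) * X.be (!s) (X.lab d) (X.lab c) = 1 := by
        cases s <;> cases X.lab c <;> cases X.lab d <;> simp [be, X.hb]
      linear_combination (X.G s c d k l * X.G (!s) k l p n) * this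
    · rw [if_neg h]
      split_ifs with h5 h6
      · exact absurd (h3.1 ⟨h5, h6⟩) h
      all_goals simp
  simp only [e, ← mul_sum, X.toDat.two]
  split_ifs with h1 h2 h2
  · simp
  · simp
  · exact absurd (by rw [h2.1]) h1
  · simp

theorem three (s : Bool) : A1 (X.N s) * A2 (X.N s) * A1 (X.N s) =
    A2 (X.N s) * A1 (X.N s) * A2 (X.N s) := by
  ext ⟨c, d, e⟩ ⟨p, n, r⟩
  let κ : ℂ := if X.lab r = X.lab c ∧ X.lab p = X.lab e then X.be s (X.lab c) (X.lab d) *
    X.be s (X.lab c) (X.lab e) * X.be s (X.lab d) (X.lab e) else 0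
  rw [mul3_scale (κ := κ) (A := A1 (X.G s)) (B := A2 (X.G s)) (C := A1 (X.G s)),
    mul3_scale (κ := κ) (A := A2 (X.G s)) (B := A1 (X.G s)) (C := A2 (X.G s)) (A' := A2 (X.N s)),
    X.toDat.three]
  all_goals
    rintro ⟨u1, u2, u3⟩ ⟨w1, w2, w3⟩
    simp only [A1, A2, Matrix.of_apply]
    split_ifs with a1 a2 a3 <;> try simp only [mul_zero, zero_mul]
    subst a1 a2 a3
  · by_cases h1 : X.G s d e u2 w3 = 0
    · simp [N, h1]
    by_cases h2 : X.G s u1 u2 p w2 = 0
    · simp [N, h2]
    by_cases h3 : X.G s w2 w3 n r = 0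
    · simp [N, h3]
    obtain ⟨h4, h5⟩ := Q_212 _ _ _ _ _ _ _ _ _ _ (X.labQ h1) (X.labQ h2) (X.labQ h3)
    unfold N
    by_cases h : X.lab r = X.lab u1 ∧ X.lab p = X.lab e
    · simp only [κ]
      rw [if_pos h, if_pos (h4.2 h).1, if_pos (h4.2 h).2.1, if_pos (h4.2 h).2.2, (h5 h).1,
        (h5 h).2.1, (h5 h).2.2]
      ring
    · simp only [κ]
      rw [if_neg h]
      split_ifs with h6 h7 h8
      · exact absurd (h4.1 ⟨h6, h7, h8⟩) h
      all_goals simp
  · by_cases h1 : X.G s c d w1 u2 = 0
    · simp [N, h1]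
    by_cases h2 : X.G s u2 u3 w2 r = 0
    · simp [N, h2]
    by_cases h3 : X.G s w1 w2 p n = 0
    · simp [N, h3]
    obtain ⟨h4, h5⟩ := Q_121 _ _ _ _ _ _ _ _ _ _ (X.labQ h1) (X.labQ h2) (X.labQ h3)
    unfold N
    by_cases h : X.lab r = X.lab c ∧ X.lab p = X.lab u3
    · simp only [κ]
      rw [if_pos h, if_pos (h4.2 h).1, if_pos (h4.2 h).2.1, if_pos (h4.2 h).2.2, (h5 h).1,
        (h5 h).2.1, (h5 h).2.2]
      ring
    · simp only [κ]
      rw [if_neg h]
      split_ifs with h6 h7 h8
      · exact absurd (h4.1 ⟨h6, h7, h8⟩) h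
      all_goals simp

theorem rg : X.vm.Rg not := ⟨X.pl, Bool.not_not, X.two, X.three⟩

theorem ha : X.a ≠ 0 := fun h => X.hb (by simpa [h] using X.hab.symm)

theorem skein (x y : Bool) (c d k l : I) (hc : X.lab c = x) (hd : X.lab d = y) :
    (if x = y then X.b else -X.b⁻¹) * X.N true c d k l +
      (if x = y then -X.b⁻¹ else X.b) * X.N false c d k l =
      (if k = c ∧ l = d then (if x = y then X.z else 0) else 0) +
        if d = X.du c ∧ l = X.du k ∧ X.lab k = y then
          (if x = y then 0 else X.z) * X.vm.v c * X.vm.u k else 0 := by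
  have hb := X.hb
  subst hc hd
  simp only [N, X.toDat.skein, vm]
  by_cases h : X.lab c = X.lab d
  · have h1 : d ≠ X.du c := fun h1 => by rw [h1, X.lab_du] at h; simp at h
    simp only [h, h1, be, if_true, false_and, if_false, beq_self_eq_true, Bool.false_eq_true]
    by_cases h2 : k = c ∧ l = d
    · simp only [h2, and_self, if_true]; field_simp; ring
    · simp only [h2, if_false]; split_ifs <;> field_simp <;> ring
  · have h0 : (X.lab c == X.lab d) = false := by simpa using h
    simp only [h, h0, be, if_true, if_false, ite_self, zero_add, Bool.true_eq_false]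
    by_cases h2 : X.lab l = X.lab c
    · have h3 : ¬ (k = c ∧ l = d) := fun h3 => h (by rw [← h2, h3.2])
      simp only [h2, h3, if_true, if_false]
      by_cases h4 : d = X.du c ∧ l = X.du k
      · obtain ⟨rfl, rfl⟩ := h4
        have h5 : X.lab k = !X.lab c := by rw [← h2, X.lab_du]; simp
        have := X.mu_ne (!X.lab c)
        simp only [X.lab_du, h5, and_self, if_true]
        field_simp; ring
      · simp only [← and_assoc, h4, false_and, if_false]
        field_simp; ring
    · have h3 : ¬ (d = X.du c ∧ l = X.du k ∧ X.lab k = X.lab d) := by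
        rintro ⟨rfl, rfl, h3⟩
        exact h2 (by rw [X.lab_du, h3, X.lab_du]; simp)
      simp only [h2, h3, if_false]; simp

theorem loop (o : Bool) : ∑ c, (if X.vm.lab c = o then X.vm.u c * X.vm.v c else 0) =
    (X.b - X.b⁻¹) / X.z := by
  have hb := X.hb
  have hq := X.hq
  have ha := X.ha
  have hab := X.hab
  have h1 := X.low
  have h2 := X.tot
  rw [eq_div_iff (show X.z ≠ 0 from X.hz), Dat.z]
  cases o
  · have : ∀ c, (if X.vm.lab c = false then X.vm.u c * X.vm.v c else 0) =
        (if X.du c < c then 0 else X.w c ^ 2) * (X.b * X.q⁻¹) := fun c => by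
      by_cases h : X.du c < c
      · simp [vm, lab, h]
      · simp only [vm, lab, h, mu]; simp; ring
    simp only [this, ← sum_mul]
    have e : X.a⁻¹ = X.q * X.b⁻¹ ^ 2 := by field_simp; exact hab.symm
    rw [e] at h1
    have : (X.q - X.q * X.b⁻¹ ^ 2) * (X.b * X.q⁻¹) = X.b - X.b⁻¹ := by field_simp
    rw [← this, ← h1]; ring
  · have : ∀ c, (if X.vm.lab c = true then X.vm.u c * X.vm.v c else 0) =
        (X.w c ^ 2 - if X.du c < c then 0 else X.w c ^ 2) * (X.q * X.b⁻¹) := fun c => by
      by_cases h : X.du c < c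
      · simp only [vm, lab, h, mu]; simp; ring
      · simp [vm, lab, h]
    simp only [this, ← sum_mul, sum_sub_distrib]
    have : (X.a - X.q⁻¹) * (X.q * X.b⁻¹) = X.b - X.b⁻¹ := by
      field_simp; linear_combination hab
    rw [← this]
    linear_combination (X.q * X.b⁻¹) * (h2 - h1)

theorem curlT (c d : I) : ∑ k, X.vm.G true c d k (X.vm.du k) * X.vm.v k =
    if d = X.vm.du c then 1 * X.vm.v c else 0 := by
  have hb := X.hb
  have hq := X.hq
  have ha := X.ha
  have hab := X.hab
  simp only [vm]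
  split_ifs with h
  swap
  · exact sum_eq_zero fun k _ => by rw [N, X.G_off h, mul_zero, zero_mul]
  subst h
  have h0 := X.toDat.curlT c (X.du c)
  rw [if_pos rfl] at h0
  by_cases hc : X.du c < c
  · have l1 : X.lab c = true := by simp [lab, hc]
    have : ∀ k, X.N true c (X.du c) k (X.du k) * (X.w k * (X.mu (!X.lab k))⁻¹) =
        X.b * (X.q * X.b⁻¹)⁻¹ * (X.G true c (X.du c) k (X.du k) * X.w k) := fun k => by
      by_cases hG : X.G true c (X.du c) k (X.du k) = 0
      · simp [N, hG]
      have h1 := (X.labQ hG).2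
      simp only [if_true, X.lab_du, l1] at h1
      have h2 : X.lab k = false := by
        have := h1.1
        revert this; cases X.lab k <;> decide
      simp only [N, X.lab_du, l1, h2, be, mu]; simp; ring
    rw [sum_congr rfl fun k _ => this k, ← mul_sum, h0, l1]
    simp only [mu, Bool.not_true, Bool.false_eq_true, if_false]
    field_simp; linear_combination (-X.w c) * hab
  · have l1 : X.lab c = false := by simp [lab, hc]
    have hc' : c < X.du c := lt_of_le_of_ne (not_lt.1 hc) (X.du_ne c).symm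
    have : ∀ k, X.N true c (X.du c) k (X.du k) * (X.w k * (X.mu (!X.lab k))⁻¹) =
        X.b * (X.G true c (X.du c) k (X.du k) * X.w k - (if k = c then X.z * X.w k else 0) +
          X.w c * (X.z * if X.du k < k then 0 else X.w k ^ 2)) := fun k => by
      by_cases hk : X.du k < k
      · have h2 : X.lab k = true := by simp [lab, hk]
        have h3 : k ≠ c := fun h => hc (h ▸ hk)
        simp only [N, X.lab_du, l1, h2, be, mu, hk, h3]; simp
        ring
      · have h2 : X.lab k = false := by simp [lab, hk]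
        have h3 : k ≠ X.du c := fun h => by rw [h, X.lab_du, l1] at h2; simp at h2
        have h4 : k < X.du c := by
          by_contra h5
          have := X.lab_mono (not_lt.1 h5)
          rw [X.lab_du, l1, h2] at this
          exact absurd this (by decide)
        simp only [N, X.lab_du, l1, h2, hk, Dat.G, Dat.g1, Dat.g2, Dat.g3, h3, lt, hc', h4,
          X.du_inj, Dat.sg]
        simp only [Bool.not_false, Bool.true_eq_false, if_false, zero_mul, false_and, and_true,
          and_self, if_true]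
        split_ifs <;> ring
    rw [sum_congr rfl fun k _ => this k, l1]
    simp only [← mul_sum, sum_add_distrib, sum_sub_distrib, h0, mu, sum_ite_eq',
      mem_univ, if_true, Dat.z, X.low, Bool.not_false]
    field_simp; ring

theorem curlF (c d : I) : ∑ k, X.vm.G false c d k (X.vm.du k) * X.vm.v k =
    if d = X.vm.du c then 1 * X.vm.v c else 0 := by
  have hb := X.hb
  have hz : X.z ≠ 0 := X.hz
  have h0 := X.curlT c d
  split_ifs at h0 ⊢ with h
  swap
  · exact sum_eq_zero fun k _ => by
      have : X.vm.G false c d k (X.vm.du k) = 0 := by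
        change X.N _ _ _ _ (X.du k) = 0
        rw [N, X.G_off h, mul_zero]
      rw [this, zero_mul]
  change d = X.du c at h
  subst h
  have h1 := X.loop (!X.lab c)
  have hne : X.lab c ≠ !X.lab c := by simp
  have h2 : ∀ k, X.b * (X.vm.G false c (X.du c) k (X.vm.du k) * X.vm.v k) =
      X.b⁻¹ * (X.vm.G true c (X.du c) k (X.vm.du k) * X.vm.v k) + X.z * X.vm.v c *
        if X.vm.lab k = !X.lab c then X.vm.u k * X.vm.v k else 0 := fun k => by
    have h3 := X.skein _ _ c (X.du c) k (X.du k) rfl (X.lab_du c)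
    simp only [hne, if_false, ite_self, zero_add, true_and] at h3
    change X.b * (X.N false c (X.du c) k (X.du k) * _) = X.b⁻¹ * (X.N true c (X.du c) k (X.du k) *
      _) + _ * if X.lab k = _ then _ else _
    split_ifs at h3 ⊢
    · linear_combination (X.vm.v k) * h3
    · linear_combination (X.vm.v k) * h3
  have h4 := sum_congr (s₁ := univ) rfl fun k _ => h2 k
  rw [sum_add_distrib, ← mul_sum, ← mul_sum, ← mul_sum, h0, h1] at h4
  apply mul_left_cancel₀ hb
  rw [h4]; field_simp; ring

end DatL

end Pool.Agent.P.MP_7f6fde_gt.Ex
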