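import Pool.Agent.P.MP_7f6fde_gt.Ex.Vertex

/-! Invariance of state sums under the local moves. -/

namespace Pool.Agent.P.MP_7f6fde_gt.Ex

open Sl Finset

variable {α I : Type} [DecidableEq α] [Fintype I] [DecidableEq I] {fl : α → α} {m : VM α I}

theorem VM.comm0 (s t : Sl α) (j : ℕ) :
    m.Eqv fl 1 [s.at 0, t.at (s.out + j)] [t.at (s.inn + j), s.at 0] := by
  have e : 2 + j = j + 1 + 1 := by omega
  intro φ st r' hr
  rw [one_mul]
  cases s with
  | cup i o =>
    simp only [Sl.out, Sl.inn, zero_add, e, VM.ops_cons, VM.ops_nil]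
    change m.op (cup 0 o) _ _ = m.op _ (m.op (cup 0 o) φ) _
    have h1 : m.op (cup 0 o) φ = fun s => ∑ c, (if m.lab c = o then m.u c else 0) *
        φ (c :: m.du c :: s) := by
      funext s; simp only [VM.op_cup0, ite_mul, zero_mul]
    rw [h1, VM.op_sum, VM.op_cup0]
    simp only [VM.op_shift, ite_mul, zero_mul]
  | cap i =>
    rcases st with _ | ⟨c, _ | ⟨d, st⟩⟩
    · simp [run_cons, step, Sl.at] at hr
    · simp [run_cons, step, Sl.at] at hr
    simp only [Sl.out, Sl.inn, zero_add, e, VM.ops_cons, VM.ops_nil, VM.op_shift]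
    change m.op (cap 0) _ _ = m.op _ (fun s => m.op (cap 0) φ _) _
    simp only [VM.op_cap0]
    have := m.op_lin (t.at j) (if d = m.du c then m.v c else 0) 0 φ φ st
    simpa using this.symm
  | cr i b =>
    rcases st with _ | ⟨c, _ | ⟨d, st⟩⟩
    · simp [run_cons, step, Sl.at] at hr
    · simp [run_cons, step, Sl.at] at hr
    simp only [Sl.out, Sl.inn, e, VM.ops_cons, VM.ops_nil, VM.op_shift]
    change m.op (cr 0 b) _ _ = m.op _ (fun s => m.op (cr 0 b) φ _) _
    simp only [VM.op_cr0, VM.op_shift]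
    have := m.op_sum (t.at j) (fun x : I × I => m.G b c d x.1 x.2)
      (fun x s => φ (x.1 :: x.2 :: s)) st
    simpa only [Fintype.sum_prod_type] using this.symm

theorem VM.eqv_comm (s t : Sl α) (j : ℕ) :
    m.Eqv fl 1 [s, t.at (s.pos + s.out + j)] [t.at (s.pos + s.inn + j), s] := by
  have h1 : ∀ i, [s.at (i + 1), t.at (i + 1 + s.out + j)] =
      sh [s.at i, t.at (i + s.out + j)] := fun i => by
    simp only [sh, List.map_cons, List.map_nil, at_pos', at_at]
    congr 3; omega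
  have h2 : ∀ i, [t.at (i + 1 + s.inn + j), s.at (i + 1)] =
      sh [t.at (i + s.inn + j), s.at i] := fun i => by
    simp only [sh, List.map_cons, List.map_nil, at_pos', at_at]
    congr 2; omega
  have a := VM.eqv_of_zero (m := m) (fl := fl) (a := 1)
    (fun i => [s.at i, t.at (i + s.out + j)])
    (fun i => [t.at (i + s.inn + j), s.at i]) h1 h2 (by simp)
    (by simpa only [zero_add] using VM.comm0 s t j) s.pos
  simpa only [at_pos] using a

omit [DecidableEq α] [Fintype I] [DecidableEq I] in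
theorem VM.Pl.du_inj (H : m.Pl fl) {c d : I} : m.du c = m.du d ↔ c = d :=
  ⟨fun h => by rw [← H.du_du c, h, H.du_du], fun h => by rw [h]⟩

omit [DecidableEq α] [Fintype I] [DecidableEq I] in
theorem VM.Pl.uv' (H : m.Pl fl) (c : I) : m.u c * m.v (m.du c) = 1 := by
  simpa only [H.du_du] using H.uv (m.du c)

omit [DecidableEq α] [Fintype I] [DecidableEq I] in
theorem VM.Pl.rot' (H : m.Pl fl) (b : Bool) (x y w k : I) :
    m.v (m.du w) * m.G b x y k (m.du w) = m.v x * m.G (!b) y w (m.du x) k := by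
  have h := H.rot (!b) y (m.du x) k (m.du w)
  simp only [H.du_du, Bool.not_not] at h
  have h1 := H.uv x
  have h2 := H.uv' w
  linear_combination (-(m.v x * m.v (m.du w))) * h -
    (m.v (m.du w) * m.G b x y k (m.du w)) * h1 + (m.v x * m.G (!b) y w (m.du x) k) * h2

omit [DecidableEq α] [DecidableEq I] in
theorem VM.Pl.sum_du (H : m.Pl fl) (F : I → ℂ) : ∑ c, F c = ∑ c, F (m.du c) :=
  (Equiv.sum_comp (Function.Involutive.toPerm _ H.du_du) F).symm

theorem VM.Pl.zig (H : m.Pl fl) (i : ℕ) (o : α) : m.Eqv fl 1 [cup (i + 1) o, cap i] [] := by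
  refine VM.eqv_of_zero (fun i => [cup (i + 1) o, cap i]) (fun _ => []) (fun _ => rfl)
    (fun _ => rfl) (by simp) (fun φ s r' h => ?_) i
  rcases s with _ | ⟨x, s⟩ <;> simp [run_cons, run_nil, step] at h
  simp only [VM.ops_cons, VM.ops_nil, VM.op_cup1, VM.op_cap0]
  rw [sum_eq_single (m.du x) (fun c _ hc => by simp [hc]) (by simp)]
  rw [if_pos (by rw [H.lab_du, h.1]), if_pos rfl, H.du_du, ← mul_assoc, H.uv]

theorem VM.Pl.zag (H : m.Pl fl) (hfl : Function.Involutive fl) (i : ℕ) (o : α) :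
    m.Eqv fl 1 [cup i o, cap (i + 1)] [] := by
  refine VM.eqv_of_zero (fun i => [cup i o, cap (i + 1)]) (fun _ => []) (fun _ => rfl)
    (fun _ => rfl) (by simp) (fun φ s r' h => ?_) i
  rcases s with _ | ⟨x, s⟩ <;> simp [run_cons, run_nil, step] at h
  simp only [VM.ops_cons, VM.ops_nil, VM.op_cup0, VM.op_cap1, H.du_du]
  rw [sum_eq_single x (fun c _ hc => by simp [Ne.symm hc]) (by simp)]
  rw [if_pos (by rw [h.1, hfl o]), if_pos rfl, ← mul_assoc, H.uv']

theorem VM.Pl.cupSl (H : m.Pl fl) (i : ℕ) (o : α) (b : Bool) :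
    m.Eqv fl 1 [cup (i + 1) o, cr i b] [cup i o, cr (i + 1) (!b)] := by
  refine VM.eqv_of_zero (fun i => [cup (i + 1) o, cr i b]) (fun i => [cup i o, cr (i + 1) (!b)])
    (fun _ => rfl) (fun _ => rfl) (by simp) (fun φ s r' h => ?_) i
  rcases s with _ | ⟨x, s⟩ <;> simp [run_cons, run_nil, step] at h
  simp only [VM.ops_cons, VM.ops_nil, VM.op_cup1, VM.op_cr0, VM.op_cup0, VM.op_cr1, one_mul]
  rw [H.sum_du]
  have e1 : ∀ n, (if m.lab (m.du n) = o then m.u (m.du n) *
      ∑ k, ∑ l, m.G b x (m.du n) k l * φ (k :: l :: m.du (m.du n) :: s) else 0) =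
      ∑ k, ∑ l, if m.lab k = o then m.u k * (m.G (!b) (m.du k) x l n * φ (k :: l :: n :: s))
        else 0 := fun n => by
    have : ∀ k l, (if m.lab k = o then m.u k * (m.G (!b) (m.du k) x l n * φ (k :: l :: n :: s))
        else 0) = if m.lab (m.du n) = o then
          m.u (m.du n) * (m.G b x (m.du n) k l * φ (k :: l :: n :: s)) else 0 := fun k l => by
      rw [← mul_assoc, ← H.rot, mul_assoc]
      by_cases hG : m.G b x (m.du n) k l = 0
      · simp [hG]
      · rw [(H.lab_G _ _ _ _ _ hG).1]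
    simp only [this, H.du_du, mul_sum]
    split_ifs <;> simp
  simp only [e1]
  rw [sum_comm]
  refine sum_congr rfl fun k _ => ?_
  rw [sum_comm]
  split_ifs
  · simp only [mul_sum]
  · simp

theorem VM.Pl.capSl (H : m.Pl fl) (i : ℕ) (b : Bool) :
    m.Eqv fl 1 [cr i b, cap (i + 1)] [cr (i + 1) (!b), cap i] := by
  refine VM.eqv_of_zero (fun i => [cr i b, cap (i + 1)]) (fun i => [cr (i + 1) (!b), cap i])
    (fun _ => rfl) (fun _ => rfl) (by simp) (fun φ s r' h => ?_) i
  rcases s with _ | ⟨x, _ | ⟨y, _ | ⟨w, s⟩⟩⟩ <;> simp [run_cons, run_nil, step] at h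
  simp only [VM.ops_cons, VM.ops_nil, VM.op_cap1, VM.op_cr0, VM.op_cap0, VM.op_cr1, one_mul]
  conv_rhs => rw [sum_comm]
  refine sum_congr rfl fun k _ => ?_
  rw [sum_eq_single (m.du w) (fun l _ hl => by
      rw [if_neg (fun h => hl (by rw [h, H.du_du])), mul_zero]) (by simp),
    sum_eq_single (m.du x) (fun l _ hl => by rw [if_neg hl, mul_zero]) (by simp),
    if_pos (H.du_du w).symm, if_pos rfl]
  linear_combination (φ (k :: s)) * H.rot' b x y w k

theorem VM.r2 (h : ∀ b c d p n, ∑ k, ∑ l, m.G b c d k l * m.G (!b) k l p n =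
    if p = c ∧ n = d then 1 else 0) (i : ℕ) (b : Bool) :
    m.Eqv fl 1 [cr i b, cr i (!b)] [] := by
  refine VM.eqv_of_zero (fun i => [cr i b, cr i (!b)]) (fun _ => [])
    (fun _ => rfl) (fun _ => rfl) (by simp) (fun φ s r' hr => ?_) i
  rcases s with _ | ⟨c, _ | ⟨d, s⟩⟩ <;> simp [run_cons, run_nil, step] at hr
  simp only [VM.ops_cons, VM.ops_nil, VM.op_cr0, one_mul, mul_sum, ← mul_assoc]
  have : ∑ k, ∑ l, ∑ p, ∑ n, m.G b c d k l * m.G (!b) k l p n * φ (p :: n :: s) =
      ∑ p, ∑ n, (∑ k, ∑ l, m.G b c d k l * m.G (!b) k l p n) * φ (p :: n :: s) := by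
    simp only [sum_mul]
    rw [← Fintype.sum_prod_type', sum_congr rfl fun _ _ => (Fintype.sum_prod_type' _).symm,
      sum_comm]
    simp only [Fintype.sum_prod_type]
  rw [this]
  simp [h, ite_and]

theorem VM.op_A1 (b : Bool) (φ : List I → ℂ) (t : List I) :
    (fun x : I × I × I => m.op (cr 0 b) φ (x.1 :: x.2.1 :: x.2.2 :: t)) =
      (A1 (m.G b)).mulVec fun x => φ (x.1 :: x.2.1 :: x.2.2 :: t) := by
  funext x
  simp [VM.op_cr0, A1, Matrix.mulVec, dotProduct, Fintype.sum_prod_type]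

theorem VM.op_A2 (b : Bool) (φ : List I → ℂ) (t : List I) :
    (fun x : I × I × I => m.op (cr (0 + 1) b) φ (x.1 :: x.2.1 :: x.2.2 :: t)) =
      (A2 (m.G b)).mulVec fun x => φ (x.1 :: x.2.1 :: x.2.2 :: t) := by
  funext x
  simp only [VM.op_cr1, A2, Matrix.mulVec, dotProduct, Fintype.sum_prod_type, Matrix.of_apply]
  symm
  rw [sum_eq_single x.1 (fun k _ hk => by simp [hk]) (by simp)]
  simp

theorem VM.r3 (h : ∀ b, A1 (m.G b) * A2 (m.G b) * A1 (m.G b) =
    A2 (m.G b) * A1 (m.G b) * A2 (m.G b)) (i : ℕ) (b : Bool) :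
    m.Eqv fl 1 [cr i b, cr (i + 1) b, cr i b] [cr (i + 1) b, cr i b, cr (i + 1) b] := by
  refine VM.eqv_of_zero (fun i => [cr i b, cr (i + 1) b, cr i b])
    (fun i => [cr (i + 1) b, cr i b, cr (i + 1) b])
    (fun _ => rfl) (fun _ => rfl) (by simp) (fun φ s r' hr => ?_) i
  rcases s with _ | ⟨c, _ | ⟨d, _ | ⟨e, s⟩⟩⟩ <;> simp [run_cons, run_nil, step] at hr
  simp only [VM.ops_cons, VM.ops_nil, one_mul]
  refine (congrFun (VM.op_A1 b _ s) (c, d, e)).trans
    (Eq.trans ?_ (congrFun (VM.op_A2 b _ s) (c, d, e)).symm)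
  rw [VM.op_A2, VM.op_A1, VM.op_A1, VM.op_A2]
  simp only [Matrix.mulVec_mulVec, ← Matrix.mul_assoc, h]

theorem VM.curl_cap {b : Bool} {a : ℂ}
    (h : ∀ c d, ∑ k, m.G b c d k (m.du k) * m.v k = if d = m.du c then a * m.v c else 0)
    (i : ℕ) : m.Eqv fl a [cr i b, cap i] [cap i] := by
  refine VM.eqv_of_zero (fun i => [cr i b, cap i]) (fun i => [cap i])
    (fun _ => rfl) (fun _ => rfl) (by simp) (fun φ s r' hr => ?_) i
  rcases s with _ | ⟨c, _ | ⟨d, s⟩⟩ <;> simp [run_cons, run_nil, step] at hr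
  simp only [VM.ops_cons, VM.ops_nil, VM.op_cr0, VM.op_cap0, mul_ite, mul_zero, sum_ite_eq',
    mem_univ, if_true, ← mul_assoc, ← sum_mul, h]
  split_ifs <;> simp

omit [DecidableEq α] in
theorem VM.Pl.cup_sum (H : m.Pl fl) {b : Bool} {a : ℂ}
    (h : ∀ c d, ∑ k, m.G b c d k (m.du k) * m.v k = if d = m.du c then a * m.v c else 0)
    (k l : I) : ∑ c, m.u c * m.G b c (m.du c) k l = if l = m.du k then a * m.u k else 0 := by
  have e : ∀ c, m.u c * m.G b c (m.du c) k l =
      m.u k * m.u l * (m.G b (m.du l) (m.du k) c (m.du c) * m.v c) := fun c => by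
    have h1 := H.rot b c k l c
    have h2 := H.rot (!b) (m.du k) l c (m.du c)
    simp only [H.du_du, Bool.not_not] at h2
    have h3 := H.uv c
    linear_combination (m.u c * m.v c) * h1 + (m.u k * m.v c) * h2 -
      (m.u c * m.G b c (m.du c) k l) * h3
  simp only [e, ← mul_sum, h, H.du_du]
  by_cases hl : l = m.du k
  · subst hl
    have := H.uv k
    simp only [H.du_du, if_true]
    linear_combination (a * m.u k) * this
  · rw [if_neg hl, if_neg (fun h => hl (by rw [← H.du_du l, ← h, H.du_du] )), mul_zero]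

theorem VM.Pl.curl_cup (H : m.Pl fl) (hfl : Function.Involutive fl) {b : Bool} {a : ℂ}
    (h : ∀ c d, ∑ k, m.G b c d k (m.du k) * m.v k = if d = m.du c then a * m.v c else 0)
    (i : ℕ) (o : α) : m.Eqv fl a [cup i o, cr i b] [cup i (fl o)] := by
  refine VM.eqv_of_zero (fun i => [cup i o, cr i b]) (fun i => [cup i (fl o)])
    (fun _ => rfl) (fun _ => rfl) (by simp) (fun φ s r' _ => ?_) i
  simp only [VM.ops_cons, VM.ops_nil, VM.op_cr0, VM.op_cup0]
  have e : ∀ c, (if m.lab c = o then m.u c * ∑ k, ∑ l, m.G b c (m.du c) k l * φ (k :: l :: s)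
      else 0) = ∑ k, ∑ l, m.u c * m.G b c (m.du c) k l *
        if m.lab k = fl o then φ (k :: l :: s) else 0 := fun c => by
    have : ∀ k l, (m.u c * m.G b c (m.du c) k l * if m.lab k = fl o then φ (k :: l :: s) else 0)
        = if m.lab c = o then m.u c * (m.G b c (m.du c) k l * φ (k :: l :: s)) else 0 :=
      fun k l => by
        by_cases hG : m.G b c (m.du c) k l = 0
        · simp [hG]
        · rw [(H.lab_G _ _ _ _ _ hG).1, H.lab_du]
          simp only [hfl.injective.eq_iff]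
          split_ifs <;> ring
    simp only [this, mul_sum]
    split_ifs <;> simp
  simp only [e]
  rw [sum_comm, mul_sum]
  refine sum_congr rfl fun k _ => ?_
  rw [sum_comm]
  simp only [← sum_mul, H.cup_sum h, ite_mul, zero_mul, sum_ite_eq', mem_univ, if_true]
  split_ifs <;> ring

theorem VM.loop {δ : ℂ} (h : ∀ o, ∑ c, (if m.lab c = o then m.u c * m.v c else 0) = δ)
    (i : ℕ) (o : α) : m.Eqv fl δ [cup i o, cap i] [] := by
  refine VM.eqv_of_zero (fun i => [cup i o, cap i]) (fun _ => [])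
    (fun _ => rfl) (fun _ => rfl) (by simp) (fun φ s r' _ => ?_) i
  simp only [VM.ops_cons, VM.ops_nil, VM.op_cap0, VM.op_cup0, if_true, ← h o, sum_mul, ite_mul,
    zero_mul, mul_assoc]

theorem VM.amp_unknot {δ : ℂ} (h : ∀ o, ∑ c, (if m.lab c = o then m.u c * m.v c else 0) = δ)
    (o : α) : m.amp [cup 0 o, cap 0] = δ := by
  simp only [VM.amp, VM.ops_cons, VM.ops_nil, VM.op_cap0, VM.op_cup0, if_true, ← h o, mul_one]

theorem VM.Pl.skein (H : m.Pl fl) {x y : α} {p p' z1 z2 : ℂ}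
    (h : ∀ c d k l, m.lab c = x → m.lab d = y → p * m.G true c d k l + p' * m.G false c d k l =
      (if k = c ∧ l = d then z1 else 0) +
        if d = m.du c ∧ l = m.du k ∧ m.lab k = y then z2 * m.v c * m.u k else 0)
    {A B : List (Sl α)} {i : ℕ} {r t : List α} (hA : run fl [] A = some r)
    (hr : r.drop i = x :: y :: t) :
    p * m.amp (A ++ cr i true :: B) + p' * m.amp (A ++ cr i false :: B) =
      z1 * m.amp (A ++ B) + z2 * m.amp (A ++ cap i :: cup i y :: B) := by
  simp only [VM.amp, VM.ops_append, VM.ops_cons]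
  generalize m.ops B _ = φ
  refine (congrFun (m.ops_lin A _ _ _ _) []).symm.trans
    (Eq.trans ?_ (congrFun (m.ops_lin A _ _ _ _) []))
  refine H.ops_congr hA (fun s hs => ?_) rfl
  subst hs
  rw [← List.map_drop] at hr
  obtain ⟨c, d, t', h1, h2, h3⟩ : ∃ c d t', s.drop i = c :: d :: t' ∧ m.lab c = x ∧ m.lab d = y := by
    rcases h4 : s.drop i with _ | ⟨c, _ | ⟨d, t'⟩⟩ <;> rw [h4] at hr <;> simp at hr
    exact ⟨c, d, t', rfl, hr.1, hr.2.1⟩
  have hi : i ≤ s.length := by
    by_contra hc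
    rw [List.drop_eq_nil_of_le (by omega)] at h1
    cases h1
  have hl : (s.take i).length = i := by simp [hi]
  have hs : s = s.take i ++ c :: d :: t' := by rw [← h1, List.take_append_drop]
  simp only [VM.op, h1, List.length_append, hl, Nat.le_add_right, if_true, List.take_left' hl,
    List.drop_left' hl]
  have e : φ s = φ (s.take i ++ c :: d :: t') := congrArg φ hs
  rw [e]
  simp only [mul_sum, ← sum_add_distrib, ← mul_assoc, ← add_mul, h c d _ _ h2 h3]
  simp only [add_mul, sum_add_distrib, ite_mul, zero_mul, ite_and, sum_ite_irrel, sum_ite_eq',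
    mem_univ, if_true, sum_const_zero, mul_ite, mul_zero, mul_sum, mul_assoc]

/-- All identities for regular isotopy. -/
structure VM.Rg (m : VM α I) (fl : α → α) : Prop extends m.Pl fl where
  inv : Function.Involutive fl
  two : ∀ b c d p n, ∑ k, ∑ l, m.G b c d k l * m.G (!b) k l p n =
    if p = c ∧ n = d then 1 else 0
  three : ∀ b, A1 (m.G b) * A2 (m.G b) * A1 (m.G b) = A2 (m.G b) * A1 (m.G b) * A2 (m.G b)

theorem VM.Rg.amp_reg (H : m.Rg fl) {D D' : List (Sl α)} (h : OneMove fl Reg D D') :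
    m.amp D = m.amp D' := by
  obtain ⟨hc, -, A, B, L, R, h, rfl, rfl⟩ := h
  have : m.Eqv fl 1 L R := by
    cases h with
    | comm s t j => exact VM.eqv_comm s t j
    | zig i o => exact H.toPl.zig i o
    | zag i o => exact H.toPl.zag H.inv i o
    | cupSl i o s => exact H.toPl.cupSl i o s
    | capSl i s => exact H.toPl.capSl i s
    | r2 i s => exact VM.r2 H.two i s
    | r3 i s => exact VM.r3 H.three i s
  rw [H.toPl.amp_eqv this hc, one_mul]

theorem VM.Rg.amp_curl (H : m.Rg fl) {b : Bool} {a : ℂ}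
    (ha : ∀ c d, ∑ k, m.G b c d k (m.du k) * m.v k = if d = m.du c then a * m.v c else 0)
    {D D' : List (Sl α)} (h : OneMove fl (Curl fl b) D D') : m.amp D = a * m.amp D' := by
  obtain ⟨hc, -, A, B, L, R, h, rfl, rfl⟩ := h
  have : m.Eqv fl a L R := by
    cases h with
    | cap i => exact VM.curl_cap ha i
    | cup i o => exact H.toPl.curl_cup H.inv ha i o
  exact H.toPl.amp_eqv this hc

end Pool.Agent.P.MP_7f6fde_gt.Ex
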