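import Pool.Agent.P.MP_7f6fde_gt.Ex.Moves

/-! The orthogonal vertex model: skein relation, curls, Reidemeister II and III. -/

namespace Pool.Agent.P.MP_7f6fde_gt.Ex

open Sl Finset

/-- Data of the orthogonal model. -/
structure Dat (I : Type) [LinearOrder I] [Fintype I] where
  du : I → I
  w : I → ℂ
  q : ℂ
  a : ℂ
  hq : q ≠ 0
  du_du : ∀ c, du (du c) = c
  du_lt : ∀ c d, du c < du d ↔ d < c
  du_ne : ∀ c, du c ≠ c
  ww : ∀ c, w (du c) * w c = 1
  key : ∀ x, (q - q⁻¹) * ∑ k, (if k < x then w k ^ 2 else 0) =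
    q⁻¹ * w x ^ 2 + (if du x < x then q - q⁻¹ else 0) - a⁻¹
  tot : (q - q⁻¹) * ∑ k, w k ^ 2 = a - a⁻¹ + (q - q⁻¹)

variable {I : Type} [LinearOrder I] [Fintype I]

/-- The order, reversed for `false`. -/
def lt (b : Bool) (c d : I) : Prop := if b then c < d else d < c

instance (b : Bool) (c d : I) : Decidable (lt b c d) := by unfold lt; infer_instance

omit [Fintype I] in
theorem lt_not (b : Bool) (c d : I) : lt (!b) c d ↔ lt b d c := by cases b <;> simp [lt]

omit [Fintype I] in
theorem lt_irr (b : Bool) (c : I) : ¬ lt b c c := by cases b <;> simp [lt]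

namespace Dat

variable (X : Dat I)

noncomputable def z : ℂ := X.q - X.q⁻¹

noncomputable def sg (b : Bool) : ℂ := if b then X.z else -X.z

noncomputable def sw (b : Bool) (c d : I) : ℂ :=
  if c = d then (if b then X.q else X.q⁻¹) else if d = X.du c then (if b then X.q⁻¹ else X.q) else 1

noncomputable def g1 (b : Bool) (c d k l : I) : ℂ := if k = d ∧ l = c then X.sw b c d else 0

noncomputable def g2 (b : Bool) (c d k l : I) : ℂ := if k = c ∧ l = d ∧ lt b c d then X.sg b else 0

noncomputable def g3 (b : Bool) (c d k l : I) : ℂ :=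
  if d = X.du c ∧ l = X.du k ∧ lt b k d then -X.sg b * X.w c * X.w k else 0

noncomputable def G (b : Bool) (c d k l : I) : ℂ := X.g1 b c d k l + X.g2 b c d k l + X.g3 b c d k l

theorem du_inj {c d : I} : X.du c = X.du d ↔ c = d :=
  ⟨fun h => by rw [← X.du_du c, h, X.du_du], fun h => by rw [h]⟩

theorem eq_du {c d : I} : c = X.du d ↔ d = X.du c :=
  ⟨fun h => by rw [h, X.du_du], fun h => by rw [h, X.du_du]⟩

theorem lt_du (b : Bool) (c d : I) : lt b (X.du c) (X.du d) ↔ lt b d c := by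
  cases b <;> simp [lt, X.du_lt]

theorem sg_not (b : Bool) : X.sg (!b) = -X.sg b := by cases b <;> simp [sg]

theorem sw_rot (b : Bool) (x n : I) : X.sw b x (X.du n) = X.sw (!b) n x := by
  have h1 := X.du_ne n
  unfold sw
  by_cases h2 : x = X.du n
  · subst h2; cases b <;> simp [h1.symm]
  · by_cases h3 : n = x
    · subst h3; cases b <;> simp [h1.symm]
    · simp [h2, h3, X.du_inj]

theorem sw_symm (b : Bool) (c d : I) : X.sw b c d = X.sw b d c := by
  simp only [sw, eq_comm (a := d) (b := c), X.eq_du (c := d)]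

theorem sw_mul (b : Bool) (c d : I) : X.sw b c d * X.sw (!b) c d = 1 := by
  have := X.hq
  unfold sw
  cases b <;> split_ifs <;> simp_all

theorem rot (b : Bool) (x k l n : I) :
    X.w (X.du n) * X.G b x (X.du n) k l = X.w k * X.G (!b) (X.du k) x l n := by
  have h1 : X.w (X.du n) * X.g1 b x (X.du n) k l = X.w k * X.g1 (!b) (X.du k) x l n := by
    unfold g1
    by_cases h : k = X.du n ∧ l = x
    · obtain ⟨rfl, rfl⟩ := h
      simp [X.du_du, X.sw_rot]
    · rw [if_neg h, if_neg (fun h' => h ⟨X.eq_du.1 h'.2, h'.1⟩)]; simp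
  have h2 : X.w (X.du n) * X.g2 b x (X.du n) k l = X.w k * X.g3 (!b) (X.du k) x l n := by
    unfold g2 g3
    simp only [X.du_du, lt_not, X.sg_not]
    by_cases h : k = x ∧ l = X.du n ∧ lt b x (X.du n)
    · obtain ⟨rfl, rfl, h⟩ := h
      rw [if_pos ⟨rfl, rfl, h⟩, if_pos ⟨rfl, (X.du_du n).symm, h⟩]
      linear_combination (-(X.sg b * X.w (X.du n))) * X.ww k
    · rw [if_neg h, if_neg (fun h' => h ⟨h'.1.symm, X.eq_du.1 h'.2.1,
        by rw [← X.eq_du.1 h'.2.1]; exact h'.2.2⟩)]; simp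
  have h3 : X.w (X.du n) * X.g3 b x (X.du n) k l = X.w k * X.g2 (!b) (X.du k) x l n := by
    unfold g2 g3
    simp only [lt_not, X.sg_not, X.du_inj]
    have e : lt b x (X.du k) ↔ lt b k (X.du x) := by rw [← X.lt_du, X.du_du]
    by_cases h : n = x ∧ l = X.du k ∧ lt b k (X.du n)
    · obtain ⟨rfl, rfl, h⟩ := h
      rw [if_pos ⟨rfl, rfl, h⟩, if_pos ⟨rfl, rfl, e.2 h⟩]
      linear_combination (-(X.sg b * X.w k)) * X.ww n
    · rw [if_neg h, if_neg (fun h' => h ⟨h'.2.1, h'.1, by rw [h'.2.1]; exact e.1 h'.2.2⟩)]; simp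
  unfold G
  linear_combination h1 + h2 + h3

theorem tri {b : Bool} {c d k l : I} (h : X.G b c d k l ≠ 0) :
    (k = d ∧ l = c) ∨ (lt b k d ∧ lt b c l ∧ ((k = c ∧ l = d) ∨ (d = X.du c ∧ l = X.du k))) := by
  by_cases h1 : k = d ∧ l = c
  · exact Or.inl h1
  by_cases h2 : k = c ∧ l = d ∧ lt b c d
  · obtain ⟨rfl, rfl, h2⟩ := h2
    exact Or.inr ⟨h2, h2, Or.inl ⟨rfl, rfl⟩⟩
  by_cases h3 : d = X.du c ∧ l = X.du k ∧ lt b k d
  · obtain ⟨rfl, rfl, h3⟩ := h3
    exact Or.inr ⟨h3, by rw [← X.lt_du, X.du_du]; exact h3, Or.inr ⟨rfl, rfl⟩⟩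
  exact absurd (by simp only [G, g1, g2, g3, if_neg h1, if_neg h2, if_neg h3, add_zero]) h

theorem triT {c d k l : I} (h : X.G true c d k l ≠ 0) : (k = d ∧ l = c) ∨ (k < d ∧ c < l) :=
  (X.tri h).imp id fun h => ⟨h.1, h.2.1⟩

theorem triF {c d k l : I} (h : X.G false c d k l ≠ 0) : (k = d ∧ l = c) ∨ (d < k ∧ l < c) :=
  (X.tri h).imp id fun h => ⟨h.1, h.2.1⟩

theorem G_swap (b : Bool) (c d : I) : X.G b c d d c = X.sw b c d := by
  have h : ¬ (d = c ∧ c = d ∧ lt b c d) := fun h => lt_irr b d (h.1 ▸ h.2.2)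
  simp [G, g1, g2, g3, lt_irr, h]

theorem skein (c d k l : I) : X.G true c d k l = X.G false c d k l +
    X.z * ((if k = c ∧ l = d then 1 else 0) -
      if d = X.du c ∧ l = X.du k then X.w c * X.w k else 0) := by
  have h1 : X.g1 true c d k l = X.g1 false c d k l + (if k = c ∧ l = d ∧ c = d then X.z else 0) -
      if d = X.du c ∧ l = X.du k ∧ k = d then X.z * X.w c * X.w k else 0 := by
    unfold g1 sw
    by_cases h : k = d ∧ l = c
    · obtain ⟨rfl, rfl⟩ := h
      by_cases h2 : l = k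
      · subst h2; simp [(X.du_ne l).symm, z]
      · by_cases h3 : k = X.du l
        · subst h3
          simp only [h2, X.du_du, and_self, if_true, if_false, and_false, Bool.false_eq_true, z]
          linear_combination (X.q - X.q⁻¹) * X.ww l
        · simp [h2, h3]
    · rw [if_neg h, if_neg h, if_neg (fun h' => h ⟨h'.1.trans h'.2.2, h'.2.1.trans h'.2.2.symm⟩),
        if_neg (fun h' => h ⟨h'.2.2, by rw [h'.2.1, h'.2.2, h'.1, X.du_du]⟩)]
      simp
  have h2 : X.g2 true c d k l = X.g2 false c d k l - (if k = c ∧ l = d ∧ c = d then X.z else 0) +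
      X.z * if k = c ∧ l = d then 1 else 0 := by
    unfold g2 sg lt
    by_cases h : k = c ∧ l = d
    · rcases lt_trichotomy c d with h1 | h1 | h1 <;> simp [h, h1, ne_of_lt, not_lt_of_gt, ne_of_gt]
    · simp only [← and_assoc, h, false_and, if_false]; simp
  have h3 : X.g3 true c d k l = X.g3 false c d k l +
      (if d = X.du c ∧ l = X.du k ∧ k = d then X.z * X.w c * X.w k else 0) -
      X.z * if d = X.du c ∧ l = X.du k then X.w c * X.w k else 0 := by
    unfold g3 sg lt
    by_cases h : d = X.du c ∧ l = X.du k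
    · simp only [h, true_and, if_true, and_self, Bool.false_eq_true, if_false]
      rcases lt_trichotomy k (X.du c) with h1 | h1 | h1 <;>
        simp [h1, ne_of_lt, not_lt_of_gt, ne_of_gt, mul_assoc]
    · simp only [← and_assoc, h, false_and, if_false]; simp
  unfold G
  linear_combination h1 + h2 + h3

theorem sum_g1 (c : I) (F : I → ℂ) :
    ∑ k, X.g1 true c (X.du c) k (X.du k) * F k = X.q⁻¹ * F (X.du c) := by
  rw [sum_eq_single (X.du c) (fun k _ hk => by simp [g1, hk]) (by simp)]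
  simp [g1, sw, X.du_du, (X.du_ne c).symm]

theorem G_off {b : Bool} {c d k : I} (h : d ≠ X.du c) : X.G b c d k (X.du k) = 0 := by
  by_contra h1
  rcases X.tri h1 with ⟨rfl, h2⟩ | ⟨-, -, ⟨rfl, h2⟩ | ⟨h2, -⟩⟩
  exacts [h (X.eq_du.1 h2.symm), h h2.symm, h h2]

theorem curlT (c d : I) : ∑ k, X.G true c d k (X.du k) * X.w k =
    if d = X.du c then X.a⁻¹ * X.w c else 0 := by
  split_ifs with h
  · subst h
    have h2 : ∑ k, X.g2 true c (X.du c) k (X.du k) * X.w k =
        (if c < X.du c then X.z else 0) * X.w c := by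
      rw [sum_eq_single c (fun k _ hk => by simp [g2, hk]) (by simp)]
      simp [g2, sg, lt]
    have h3 : ∑ k, X.g3 true c (X.du c) k (X.du k) * X.w k =
        -X.w c * (X.z * ∑ k, if k < X.du c then X.w k ^ 2 else 0) := by
      simp only [mul_sum]
      refine sum_congr rfl fun k _ => ?_
      simp only [g3, sg, lt, true_and, if_true]
      split_ifs <;> ring
    simp only [G, add_mul, sum_add_distrib, X.sum_g1, h2, h3, z, X.key, X.du_du]
    linear_combination (-(X.q⁻¹ * X.w (X.du c))) * X.ww c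
  · exact sum_eq_zero fun k _ => by rw [X.G_off h, zero_mul]

theorem curlF (c d : I) : ∑ k, X.G false c d k (X.du k) * X.w k =
    if d = X.du c then X.a * X.w c else 0 := by
  split_ifs with h
  · subst h
    have h1 := X.curlT c (X.du c)
    simp only [X.skein, if_true, X.du_inj, and_self, add_mul, sum_add_distrib] at h1
    have h2 : ∑ k, X.z * ((if k = c then 1 else 0) - X.w c * X.w k) * X.w k =
        X.z * X.w c - X.w c * (X.z * ∑ k, X.w k ^ 2) := by
      have : ∀ k, X.z * ((if k = c then 1 else 0) - X.w c * X.w k) * X.w k =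
          (if k = c then X.z * X.w k else 0) - X.w c * (X.z * X.w k ^ 2) := fun k => by
        split_ifs <;> ring
      simp only [this, sum_sub_distrib, sum_ite_eq', mem_univ, if_true, mul_sum]
    rw [h2, z, X.tot] at h1
    linear_combination h1
  · exact sum_eq_zero fun k _ => by rw [X.G_off h, zero_mul]

/-- The unoriented vertex model. -/
noncomputable def vm : VM Unit I := ⟨fun _ => (), X.du, X.w, X.w, X.G⟩

theorem pl : X.vm.Pl id :=
  ⟨X.du_du, fun _ => rfl, X.ww, fun _ _ _ _ _ _ => ⟨rfl, rfl⟩, X.rot⟩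

end Dat

end Pool.Agent.P.MP_7f6fde_gt.Ex
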