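import Pool.Agent.P.MP_7f6fde_gt.Check

/-! Rows of labels are respected by the local moves. -/

namespace Pool.Agent.P.MP_7f6fde_gt.Ex

open Sl

variable {α : Type} [DecidableEq α] {fl : α → α}

theorem run_nil (r : List α) : run fl r [] = some r := rfl

theorem run_cons (r : List α) (c : Sl α) (w : List (Sl α)) :
    run fl r (c :: w) = (step fl r c).bind fun r' => run fl r' w := by
  simp [run, List.foldlM_cons]

theorem step_shift (x : α) (r : List α) (c : Sl α) (i : ℕ) :
    step fl (x :: r) (c.at (i + 1)) = (step fl r (c.at i)).map (List.cons x) := by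
  cases c with
  | cup j o => by_cases h : i ≤ r.length <;> simp [Sl.at, step, h]
  | cap j =>
    simp only [Sl.at, step, List.drop_succ_cons, List.take_succ_cons]
    rcases r.drop i with _ | ⟨a, _ | ⟨b, t⟩⟩ <;> simp
  | cr j s =>
    simp only [Sl.at, step, List.drop_succ_cons, List.take_succ_cons]
    rcases r.drop i with _ | ⟨a, _ | ⟨b, t⟩⟩ <;> simp

theorem step_nil (c : Sl α) (i : ℕ) : step fl [] (c.at (i + 1)) = none := by
  cases c <;> simp [Sl.at, step]

/-- Shift of a word by one position. -/
def sh (w : List (Sl α)) : List (Sl α) := w.map fun c => c.at (c.pos + 1)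

theorem run_sh (x : α) (r : List α) (w : List (Sl α)) :
    run fl (x :: r) (sh w) = (run fl r w).map (List.cons x) := by
  induction w generalizing r with
  | nil => rfl
  | cons c w ih =>
    have h := step_shift (fl := fl) x r c c.pos
    rw [at_pos] at h
    simp only [sh, List.map_cons, run_cons] at ih ⊢
    rw [h]
    cases step fl r c with
    | none => rfl
    | some r' => simpa using ih r'

theorem run_sh_nil (c : Sl α) (w : List (Sl α)) : run fl [] (sh (c :: w)) = none := by
  simp only [sh, List.map_cons, run_cons, step_nil]; rfl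

/-- `R` can be read on every row on which `L` can, with the same result. -/
def Le (fl : α → α) (L R : List (Sl α)) : Prop :=
  ∀ r r', run fl r L = some r' → run fl r R = some r'

theorem Le.shift {c : Sl α} {L R : List (Sl α)} (h : Le fl (c :: L) R) :
    Le fl (sh (c :: L)) (sh R) := by
  intro r r' hr
  cases r with
  | nil => rw [run_sh_nil] at hr; cases hr
  | cons x r =>
    rw [run_sh] at hr ⊢
    obtain ⟨u, hu, rfl⟩ := Option.map_eq_some_iff.1 hr
    rw [h r u hu]; rfl

theorem le_of_zero (L R : ℕ → List (Sl α)) (hL : ∀ i, L (i + 1) = sh (L i))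
    (hR : ∀ i, R (i + 1) = sh (R i)) (hne : ∀ i, L i ≠ []) (h0 : Le fl (L 0) (R 0)) (i : ℕ) :
    Le fl (L i) (R i) := by
  induction i with
  | zero => exact h0
  | succ i ih =>
    rw [hL, hR]
    obtain ⟨c, w, h⟩ := List.exists_cons_of_ne_nil (hne i)
    rw [h] at ih ⊢
    exact ih.shift

omit [DecidableEq α] in
theorem at_out (t : Sl α) (i : ℕ) : (t.at i).out = t.out := by cases t <;> rfl

omit [DecidableEq α] in
theorem at_inn (t : Sl α) (i : ℕ) : (t.at i).inn = t.inn := by cases t <;> rfl

omit [DecidableEq α] in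
theorem at_pos' (t : Sl α) (i : ℕ) : (t.at i).pos = i := by cases t <;> rfl

theorem run_comm0 (s t : Sl α) (j : ℕ) (r : List α) :
    run fl r [s.at 0, t.at (s.out + j)] = run fl r [t.at (s.inn + j), s.at 0] := by
  have e : 2 + j = j + 1 + 1 := by omega
  cases s with
  | cup i o =>
    simp only [Sl.at, Sl.out, Sl.inn, run_cons, run_nil, zero_add, e]
    have h1 : ∀ u : List α, step fl u (cup 0 o) = some (o :: fl o :: u) := fun u => by simp [step]
    simp only [h1, Option.bind_some]
    change (step fl _ (t.at _)).bind _ = (step fl _ (t.at _)).bind _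
    rw [step_shift, step_shift]
    cases step fl r (t.at j) <;> simp
  | cap i =>
    simp only [Sl.out, Sl.inn, run_cons, run_nil, zero_add, e]
    rcases r with _ | ⟨x, _ | ⟨y, r⟩⟩
    · rw [step_nil]; simp [Sl.at, step]
    · rw [step_shift, step_nil]; simp [Sl.at, step]
    · rw [step_shift, step_shift]
      have h1 : ∀ u : List α, step fl (x :: y :: u) ((cap i).at 0) =
          if y = fl x then some u else none := fun u => by simp [step, Sl.at]
      rw [h1]
      cases h : step fl r (t.at j) <;> by_cases h2 : y = fl x <;> simp [h, h1, h2]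
      all_goals simp [step, Sl.at]
  | cr i b =>
    simp only [Sl.out, Sl.inn, run_cons, run_nil, e]
    rcases r with _ | ⟨x, _ | ⟨y, r⟩⟩
    · rw [step_nil]; simp [Sl.at, step]
    · rw [step_shift, step_nil]; simp [Sl.at, step]
    · have h1 : ∀ (x y : α) (u : List α), step fl (x :: y :: u) ((cr i b).at 0) =
          some (y :: x :: u) := fun x y u => by simp [step, Sl.at]
      rw [step_shift, step_shift, h1, Option.bind_some, step_shift, step_shift]
      cases h : step fl r (t.at j) <;> simp [h1]

theorem le_comm (s t : Sl α) (j : ℕ) :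
    Le fl [s, t.at (s.pos + s.out + j)] [t.at (s.pos + s.inn + j), s] ∧
    Le fl [t.at (s.pos + s.inn + j), s] [s, t.at (s.pos + s.out + j)] := by
  have h1 : ∀ i, [s.at (i + 1), t.at (i + 1 + s.out + j)] =
      sh [s.at i, t.at (i + s.out + j)] := fun i => by
    simp only [sh, List.map_cons, List.map_nil, at_pos', at_at]
    congr 3; omega
  have h2 : ∀ i, [t.at (i + 1 + s.inn + j), s.at (i + 1)] =
      sh [t.at (i + s.inn + j), s.at i] := fun i => by
    simp only [sh, List.map_cons, List.map_nil, at_pos', at_at]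
    congr 2; omega
  have a := le_of_zero (fl := fl) (fun i => [s.at i, t.at (i + s.out + j)])
    (fun i => [t.at (i + s.inn + j), s.at i]) h1 h2 (by simp)
    (fun r r' h => by simpa only [zero_add, run_comm0] using h) s.pos
  have b := le_of_zero (fl := fl) (fun i => [t.at (i + s.inn + j), s.at i])
    (fun i => [s.at i, t.at (i + s.out + j)]) h2 h1 (by simp)
    (fun r r' h => by simpa only [zero_add, run_comm0] using h) s.pos
  simp only [at_pos] at a b
  exact ⟨a, b⟩

theorem le_reg (hfl : Function.Involutive fl) {L R : List (Sl α)} (h : Reg L R) : Le fl L R := by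
  cases h with
  | comm s t j => exact (le_comm s t j).1
  | zig i o =>
    refine le_of_zero (fun i => [cup (i + 1) o, cap i]) (fun _ => []) (fun _ => rfl)
      (fun _ => rfl) (by simp) (fun r r' h => ?_) i
    rcases r with _ | ⟨x, r⟩ <;> simp [run_cons, run_nil, step] at h ⊢
    obtain ⟨rfl, rfl⟩ := h
    simp [hfl x]
  | zag i o =>
    refine le_of_zero (fun i => [cup i o, cap (i + 1)]) (fun _ => []) (fun _ => rfl)
      (fun _ => rfl) (by simp) (fun r r' h => ?_) i
    rcases r with _ | ⟨x, r⟩ <;> simp [run_cons, run_nil, step] at h ⊢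
    obtain ⟨rfl, rfl⟩ := h
    simp [hfl o]
  | cupSl i o s =>
    refine le_of_zero (fun i => [cup (i + 1) o, cr i s]) (fun i => [cup i o, cr (i + 1) (!s)])
      (fun _ => rfl) (fun _ => rfl) (by simp) (fun r r' h => ?_) i
    rcases r with _ | ⟨x, r⟩ <;> simp [run_cons, run_nil, step] at h ⊢
    exact h
  | capSl i s =>
    refine le_of_zero (fun i => [cr i s, cap (i + 1)]) (fun i => [cr (i + 1) (!s), cap i])
      (fun _ => rfl) (fun _ => rfl) (by simp) (fun r r' h => ?_) i
    rcases r with _ | ⟨x, _ | ⟨y, _ | ⟨z, r⟩⟩⟩ <;> simp [run_cons, run_nil, step] at h ⊢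
    exact h
  | r2 i s =>
    refine le_of_zero (fun i => [cr i s, cr i (!s)]) (fun _ => [])
      (fun _ => rfl) (fun _ => rfl) (by simp) (fun r r' h => ?_) i
    rcases r with _ | ⟨x, _ | ⟨y, r⟩⟩ <;> simp [run_cons, run_nil, step] at h ⊢
    exact h
  | r3 i s =>
    refine le_of_zero (fun i => [cr i s, cr (i + 1) s, cr i s])
      (fun i => [cr (i + 1) s, cr i s, cr (i + 1) s])
      (fun _ => rfl) (fun _ => rfl) (by simp) (fun r r' h => ?_) i
    rcases r with _ | ⟨x, _ | ⟨y, _ | ⟨z, r⟩⟩⟩ <;> simp [run_cons, run_nil, step] at h ⊢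
    exact h

theorem le_cupSl' (i : ℕ) (o : α) (s : Bool) :
    Le fl [cup i o, cr (i + 1) (!s)] [cup (i + 1) o, cr i s] := by
  refine le_of_zero (fun i => [cup i o, cr (i + 1) (!s)]) (fun i => [cup (i + 1) o, cr i s])
    (fun _ => rfl) (fun _ => rfl) (by simp) (fun r r' h => ?_) i
  rcases r with _ | ⟨x, r⟩ <;> simp [run_cons, run_nil, step] at h ⊢
  exact h

theorem le_capSl' (i : ℕ) (s : Bool) :
    Le fl [cr (i + 1) (!s), cap i] [cr i s, cap (i + 1)] := by
  refine le_of_zero (fun i => [cr (i + 1) (!s), cap i]) (fun i => [cr i s, cap (i + 1)])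
    (fun _ => rfl) (fun _ => rfl) (by simp) (fun r r' h => ?_) i
  rcases r with _ | ⟨x, _ | ⟨y, _ | ⟨z, r⟩⟩⟩ <;> simp [run_cons, run_nil, step] at h ⊢
  exact h

theorem le_curl (hfl : Function.Involutive fl) {s : Bool} {L R : List (Sl α)}
    (h : Curl fl s L R) : Le fl L R := by
  cases h with
  | cap i =>
    refine le_of_zero (fun i => [cr i s, cap i]) (fun i => [cap i])
      (fun _ => rfl) (fun _ => rfl) (by simp) (fun r r' h => ?_) i
    rcases r with _ | ⟨x, _ | ⟨y, r⟩⟩ <;> simp [run_cons, run_nil, step] at h ⊢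
    obtain ⟨rfl, rfl⟩ := h
    simp [hfl y]
  | cup i o =>
    refine le_of_zero (fun i => [cup i o, cr i s]) (fun i => [cup i (fl o)])
      (fun _ => rfl) (fun _ => rfl) (by simp) (fun r r' h => ?_) i
    simp [run_cons, run_nil, step] at h ⊢
    simp [hfl o, ← h]

theorem le_loop (i : ℕ) (o : α) : Le fl [cup i o, cap i] [] := by
  refine le_of_zero (fun i => [cup i o, cap i]) (fun _ => [])
    (fun _ => rfl) (fun _ => rfl) (by simp) (fun r r' h => ?_) i
  simpa [run_cons, run_nil, step] using h

theorem step_length {r r' : List α} {c : Sl α} (h : step fl r c = some r') :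
    r'.length + c.inn = r.length + c.out := by
  cases c with
  | cup i o =>
    simp only [step] at h
    split_ifs at h with h1
    obtain rfl := Option.some.inj h
    simp [Sl.inn, Sl.out]; omega
  | cap i =>
    simp only [step] at h
    have h2 := congrArg List.length (List.take_append_drop i r)
    rcases h3 : r.drop i with _ | ⟨x, _ | ⟨y, t⟩⟩ <;> rw [h3] at h h2 <;> simp at h
    obtain ⟨-, rfl⟩ := h
    simp only [List.length_append, List.length_cons, Sl.inn, Sl.out] at h2 ⊢
    omega
  | cr i s =>
    simp only [step] at h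
    have h2 := congrArg List.length (List.take_append_drop i r)
    rcases h3 : r.drop i with _ | ⟨x, _ | ⟨y, t⟩⟩ <;> rw [h3] at h h2 <;> simp at h
    subst h
    simp only [List.length_append, List.length_cons, Sl.inn, Sl.out] at h2 ⊢
    omega

end Pool.Agent.P.MP_7f6fde_gt.Ex
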