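import Pool.Agent.P.MP_7f6fde_gt.Ex.Rows

/-! Rewriting of words up to scalars for a function with skein properties. -/

namespace Pool.Agent.P.MP_7f6fde_gt.Ex

open Sl

variable {α : Type} [DecidableEq α] {fl : α → α} {R M : Type} [CommRing R] [AddCommGroup M]
  [Module R M]

/-- Skein properties of a function on words with values in a module. -/
structure Skein (R : Type) [CommRing R] [Module R M] (fl : α → α) (f : List (Sl α) → M) :
    Prop where
  inv : Function.Involutive fl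
  reg : ∀ D D', OneMove fl Reg D D' → f D = f D'
  curl : ∀ s, ∃ c : R, ∀ D D', OneMove fl (Curl fl s) D D' → f D = c • f D'
  loop : ∃ c : R, ∀ A B i o, Closed fl (A ++ [cup i o, cap i] ++ B) →
    f (A ++ [cup i o, cap i] ++ B) = c • f (A ++ B)
  switch : ∀ x y s, ∃ c1 c2 c3 : R, (x ≠ y → c2 = 0) ∧ (y ≠ fl x → c3 = 0) ∧
    ∀ A B i r t, run fl [] A = some r → r.drop i = x :: y :: t → Closed fl (A ++ cr i s :: B) →
      f (A ++ cr i s :: B) = c1 • f (A ++ cr i (!s) :: B) + c2 • f (A ++ B) +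
        c3 • f (A ++ cap i :: cup i y :: B)

theorem Le.ctx {L L' : List (Sl α)} (h : Le fl L L') (P Q : List (Sl α)) :
    Le fl (P ++ L ++ Q) (P ++ L' ++ Q) := by
  intro r r' hr
  simp only [run_append, Option.bind_eq_some_iff] at hr ⊢
  obtain ⟨b, ⟨a, h1, h2⟩, h3⟩ := hr
  exact ⟨b, ⟨a, h1, h a b h2⟩, h3⟩

/-- `L` may be replaced by a fixed multiple of `L'` in every closed context. -/
def Rw (R : Type) [CommRing R] [Module R M] (fl : α → α) (f : List (Sl α) → M)
    (L L' : List (Sl α)) : Prop :=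
  Le fl L L' ∧ ∃ c : R, ∀ A B, Closed fl (A ++ L ++ B) → f (A ++ L ++ B) = c • f (A ++ L' ++ B)

variable {f : List (Sl α) → M}

theorem Rw.refl (L : List (Sl α)) : Rw R fl f L L :=
  ⟨fun _ _ h => h, 1, fun _ _ _ => (one_smul _ _).symm⟩

theorem Rw.trans {L L' L'' : List (Sl α)} (h : Rw R fl f L L') (h' : Rw R fl f L' L'') :
    Rw R fl f L L'' := by
  obtain ⟨h1, c, hc⟩ := h
  obtain ⟨h2, d, hd⟩ := h'
  refine ⟨fun r r' h => h2 r r' (h1 r r' h), c * d, fun A B h => ?_⟩
  rw [hc A B h, hd A B (h1.ctx A B _ _ h), mul_smul]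

theorem Rw.ctx {L L' : List (Sl α)} (h : Rw R fl f L L') (P Q : List (Sl α)) :
    Rw R fl f (P ++ L ++ Q) (P ++ L' ++ Q) := by
  obtain ⟨h1, c, hc⟩ := h
  refine ⟨h1.ctx P Q, c, fun A B h => ?_⟩
  have := hc (A ++ P) (Q ++ B) (by simpa only [List.append_assoc] using h)
  simpa only [List.append_assoc] using this

theorem Rw.cons {L L' : List (Sl α)} (h : Rw R fl f L L') (c : Sl α) :
    Rw R fl f (c :: L) (c :: L') := by
  simpa using h.ctx [c] []

theorem Rw.app {L L' : List (Sl α)} (h : Rw R fl f L L') (Q : List (Sl α)) :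
    Rw R fl f (L ++ Q) (L' ++ Q) := by
  simpa using h.ctx [] Q

theorem Skein.fwd (H : Skein R fl f) {L L' : List (Sl α)} (h : Reg L L') : Rw R fl f L L' :=
  ⟨le_reg H.inv h, 1, fun A B hc => by
    rw [one_smul]
    exact H.reg _ _ ⟨hc, (le_reg H.inv h).ctx A B _ _ hc, A, B, L, L', h, rfl, rfl⟩⟩

theorem Skein.bwd (H : Skein R fl f) {L L' : List (Sl α)} (h : Reg L' L) (hl : Le fl L L') :
    Rw R fl f L L' :=
  ⟨hl, 1, fun A B hc => by
    rw [one_smul]
    exact (H.reg _ _ ⟨hl.ctx A B _ _ hc, hc, A, B, L', L, h, rfl, rfl⟩).symm⟩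

theorem Skein.rcurl (H : Skein R fl f) {s : Bool} {L L' : List (Sl α)} (h : Curl fl s L L') :
    Rw R fl f L L' := by
  obtain ⟨c, hc⟩ := H.curl s
  exact ⟨le_curl H.inv h, c, fun A B h1 =>
    hc _ _ ⟨h1, (le_curl H.inv h).ctx A B _ _ h1, A, B, L, L', h, rfl, rfl⟩⟩

theorem Skein.rloop (H : Skein R fl f) (i : ℕ) (o : α) : Rw R fl f [cup i o, cap i] [] := by
  obtain ⟨c, hc⟩ := H.loop
  exact ⟨le_loop i o, c, fun A B h => by simpa using hc A B i o h⟩

/-- `s` first, then `t` further right: exchange. -/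
theorem Skein.cm (H : Skein R fl f) (s t : Sl α) (j a b : ℕ) (ha : a = s.pos + s.out + j)
    (hb : b = s.pos + s.inn + j) (W : List (Sl α)) :
    Rw R fl f (s :: t.at a :: W) (t.at b :: s :: W) := by
  subst ha hb
  exact (H.fwd (Reg.comm s t j)).app W

/-- `t` further right first, then `s`: exchange. -/
theorem Skein.cm' (H : Skein R fl f) (s t : Sl α) (j a b : ℕ) (ha : a = s.pos + s.out + j)
    (hb : b = s.pos + s.inn + j) (W : List (Sl α)) :
    Rw R fl f (t.at b :: s :: W) (s :: t.at a :: W) := by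
  subst ha hb
  exact (H.bwd (Reg.comm s t j) (le_comm s t j).2).app W

/-- The arc joining strands `p` and `p + d + 1` below the `d` strands between them. -/
def K (p : ℕ) : ℕ → List (Sl α)
  | 0 => [cap p]
  | d + 1 => cr (p + d + 1) true :: K p d

/-- A word in crossings only. -/
def Br (β : List (Sl α)) : Prop := ∀ c ∈ β, ∃ i s, c = cr i s

omit [DecidableEq α] in
theorem Br.nil : Br ([] : List (Sl α)) := fun _ h => by simp at h

omit [DecidableEq α] in
theorem Br.cons {β : List (Sl α)} (h : Br β) (i : ℕ) (s : Bool) : Br (cr i s :: β) := by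
  intro c hc
  rcases List.mem_cons.1 hc with rfl | hc
  exacts [⟨i, s, rfl⟩, h c hc]

omit [DecidableEq α] in
theorem Br.snoc {β : List (Sl α)} (h : Br β) (i : ℕ) (s : Bool) : Br (β ++ [cr i s]) := by
  intro c hc
  rcases List.mem_append.1 hc with hc | hc
  exacts [h c hc, ⟨i, s, by simpa using hc⟩]

section cases

variable (H : Skein R fl f)
include H

theorem far_right (t : Sl α) (p d j : ℕ) :
    Rw R fl f (t.at (p + d + 2 + j) :: K p d) (K p d ++ [t.at (p + d + j)]) := by
  induction d generalizing j with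
  | zero => exact H.cm' (cap p) t j _ _ rfl rfl []
  | succ d ih =>
    refine (H.cm' (cr (p + d + 1) true) t j (p + d + 2 + (j + 1)) _
      (by simp only [Sl.pos, Sl.out]; omega) (by simp only [Sl.pos, Sl.inn]; omega) _).trans ?_
    have := (ih (j + 1)).cons (cr (p + d + 1) true)
    rwa [show p + d + (j + 1) = p + (d + 1) + j by omega] at this

theorem far_left (t : Sl α) (j d : ℕ) :
    Rw R fl f (t :: K (t.pos + t.out + j) d) (K (t.pos + t.inn + j) d ++ [t]) := by
  induction d with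
  | zero => exact H.cm t (cap 0) j _ _ rfl rfl []
  | succ d ih =>
    exact (H.cm t (cr 0 true) (j + d + 1) (t.pos + t.out + j + d + 1) (t.pos + t.inn + j + d + 1)
      (by omega) (by omega) _).trans (ih.cons _)

theorem mid_cr (p j e : ℕ) :
    Rw R fl f (cr (p + j + 1) true :: K p (j + 2 + e)) (K p (j + 2 + e) ++ [cr (p + j) true]) := by
  induction e with
  | zero =>
    exact ((H.fwd (Reg.r3 (p + j + 1) true)).app (K p j)).trans
      (((far_right H (cr 0 true) p j 0).cons _).cons _)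
  | succ e ih =>
    exact (H.cm (cr (p + j + 1) true) (cr 0 true) e (p + (j + 2 + e) + 1) (p + (j + 2 + e) + 1)
      (by simp only [Sl.pos, Sl.out]; omega) (by simp only [Sl.pos, Sl.inn]; omega) _).trans
      (ih.cons _)

theorem mid_cup (o : α) (p j e : ℕ) :
    Rw R fl f (cup (p + j + 1) o :: K p (j + 2 + e)) (K p (j + e) ++ [cup (p + j) o]) := by
  induction e with
  | zero =>
    refine ((H.bwd (Reg.cupSl (p + j + 1) o false) (le_cupSl' _ _ _)).app
      (cr (p + j + 1) true :: K p j)).trans ?_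
    exact (((H.fwd (Reg.r2 (p + j + 1) false)).app (K p j)).cons _).trans
      (far_right H (cup 0 o) p j 0)
  | succ e ih =>
    exact (H.cm (cup (p + j + 1) o) (cr 0 true) e (p + (j + 2 + e) + 1) (p + (j + e) + 1)
      (by simp only [Sl.pos, Sl.out]; omega) (by simp only [Sl.pos, Sl.inn]; omega) _).trans
      (ih.cons _)

theorem cup_right (o : α) (p d : ℕ) : ∃ β, Br β ∧ Rw R fl f (cup (p + d + 1) o :: K p d) β := by
  induction d with
  | zero => exact ⟨[], Br.nil, H.fwd (Reg.zig p o)⟩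
  | succ d ih =>
    obtain ⟨β, hβ, h⟩ := ih
    refine ⟨β ++ [cr (p + d) false], hβ.snoc _ _, ?_⟩
    exact ((H.fwd (Reg.cupSl (p + d + 1) o true)).app (K p d)).trans
      (((far_right H (cr 0 false) p d 0).cons _).trans (h.app _))

theorem cup_left (o : α) (p d : ℕ) : ∃ β, Br β ∧ Rw R fl f (cup p o :: K (p + 1) d) β := by
  induction d with
  | zero => exact ⟨[], Br.nil, H.fwd (Reg.zag p o)⟩
  | succ d ih =>
    obtain ⟨β, hβ, h⟩ := ih
    exact ⟨cr (p + d) true :: β, hβ.cons _ _,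
      (H.cm (cup p o) (cr 0 true) d (p + 1 + d + 1) (p + d)
        (by simp only [Sl.pos, Sl.out]; omega) (by simp only [Sl.pos, Sl.inn]; omega) _).trans
        (h.cons _)⟩

theorem cup_same (o : α) (p d : ℕ) : ∃ β, Br β ∧ Rw R fl f (cup p o :: K p (d + 1)) β := by
  induction d with
  | zero =>
    refine ⟨[], Br.nil, ((H.bwd (Reg.cupSl p o false) (le_cupSl' _ _ _)).app [cap p]).trans ?_⟩
    exact ((H.rcurl (Curl.cap p false)).cons _).trans (H.fwd (Reg.zig p o))
  | succ d ih =>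
    obtain ⟨β, hβ, h⟩ := ih
    exact ⟨cr (p + d) true :: β, hβ.cons _ _,
      (H.cm (cup p o) (cr 0 true) d (p + (d + 1) + 1) (p + d)
        (by simp only [Sl.pos, Sl.out]; omega) (by simp only [Sl.pos, Sl.inn]; omega) _).trans
        (h.cons _)⟩

theorem cr_same (p d : ℕ) : Rw R fl f (cr p true :: K p (d + 1)) (K (p + 1) d) := by
  induction d with
  | zero =>
    exact ((H.bwd (Reg.capSl p false) (le_capSl' _ _)).cons _).trans
      ((H.fwd (Reg.r2 p true)).app [cap (p + 1)])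
  | succ d ih =>
    refine (H.cm (cr p true) (cr 0 true) d (p + (d + 1) + 1) (p + 1 + d + 1)
      (by simp only [Sl.pos, Sl.out]; omega) (by simp only [Sl.pos, Sl.inn]; omega) _).trans
      (ih.cons _)

theorem cr_left (p d : ℕ) : Rw R fl f (cr p false :: K (p + 1) d) (K p (d + 1)) := by
  induction d with
  | zero => exact H.fwd (Reg.capSl p false)
  | succ d ih =>
    refine (H.cm (cr p false) (cr 0 true) d (p + 1 + d + 1) (p + (d + 1) + 1)
      (by simp only [Sl.pos, Sl.out]; omega) (by simp only [Sl.pos, Sl.inn]; omega) _).trans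
      (ih.cons _)

theorem cr_case (i p d : ℕ) :
    ∃ s p' d' β, Br β ∧ Rw R fl f (cr i s :: K p d) (K p' d' ++ β) := by
  by_cases h1 : p + d + 2 ≤ i
  · obtain ⟨j, rfl⟩ := Nat.exists_eq_add_of_le h1
    exact ⟨true, p, d, _, Br.nil.cons _ _, far_right H (cr 0 true) p d j⟩
  by_cases h2 : i + 2 ≤ p
  · obtain ⟨j, rfl⟩ := Nat.exists_eq_add_of_le h2
    exact ⟨true, _, d, _, Br.nil.cons _ _, far_left H (cr i true) j d⟩
  by_cases h3 : i = p + d + 1
  · subst h3
    exact ⟨true, p, d + 1, [], Br.nil, by simpa [K] using Rw.refl _⟩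
  by_cases h4 : p = i + 1
  · subst h4
    exact ⟨false, i, d + 1, [], Br.nil, by simpa using cr_left H i d⟩
  rcases d with _ | d
  · obtain rfl : i = p := by omega
    exact ⟨true, i, 0, [], Br.nil, H.rcurl (Curl.cap i true)⟩
  by_cases h5 : i = p
  · subst h5
    exact ⟨true, i + 1, d, [], Br.nil, by simpa using cr_same H i d⟩
  by_cases h6 : i = p + d + 1
  · subst h6
    exact ⟨false, p, d, [], Br.nil, by
      simpa [K] using (H.fwd (Reg.r2 (p + d + 1) false)).app (K p d)⟩
  obtain ⟨j, rfl⟩ : ∃ j, i = p + j + 1 := ⟨i - p - 1, by omega⟩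
  obtain ⟨e, he⟩ : ∃ e, d + 1 = j + 2 + e := ⟨d - 1 - j, by omega⟩
  rw [he]
  exact ⟨true, p, _, _, Br.nil.cons _ _, mid_cr H p j e⟩

theorem cup_case (i : ℕ) (o : α) (p d : ℕ) :
    (∃ β, Br β ∧ Rw R fl f (cup i o :: K p d) β) ∨
      ∃ p' d' i', Rw R fl f (cup i o :: K p d) (K p' d' ++ [cup i' o]) := by
  by_cases h1 : p + d + 2 ≤ i
  · obtain ⟨j, rfl⟩ := Nat.exists_eq_add_of_le h1
    exact Or.inr ⟨p, d, _, far_right H (cup 0 o) p d j⟩
  by_cases h2 : i + 2 ≤ p
  · obtain ⟨j, rfl⟩ := Nat.exists_eq_add_of_le h2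
    exact Or.inr ⟨_, d, _, far_left H (cup i o) j d⟩
  by_cases h3 : i = p + d + 1
  · subst h3
    exact Or.inl (cup_right H o p d)
  by_cases h4 : p = i + 1
  · subst h4
    exact Or.inl (cup_left H o i d)
  rcases d with _ | d
  · obtain rfl : i = p := by omega
    exact Or.inl ⟨[], Br.nil, H.rloop i o⟩
  by_cases h5 : i = p
  · subst h5
    exact Or.inl (cup_same H o i d)
  by_cases h6 : i = p + d + 1
  · subst h6
    obtain ⟨β, hβ, h⟩ := cup_right H (fl o) p d
    exact Or.inl ⟨β, hβ, ((H.rcurl (Curl.cup (p + d + 1) o true)).app (K p d)).trans h⟩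
  obtain ⟨j, rfl⟩ : ∃ j, i = p + j + 1 := ⟨i - p - 1, by omega⟩
  obtain ⟨e, he⟩ : ∃ e, d + 1 = j + 2 + e := ⟨d - 1 - j, by omega⟩
  rw [he]
  exact Or.inr ⟨p, _, _, mid_cup H o p j e⟩

end cases

end Pool.Agent.P.MP_7f6fde_gt.Ex
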