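import Pool.Agent.P.MP_7f6fde_gt.Ex.Rw

/-! Every closed word evaluates to a multiple of the value of the unknot. -/

namespace Pool.Agent.P.MP_7f6fde_gt.Ex

open Sl

variable {α : Type} [DecidableEq α] {fl : α → α} {R M : Type} [CommRing R] [AddCommGroup M]
  [Module R M] {f : List (Sl α) → M}

/-- Standard upper halves: arcs closed one after the other. -/
inductive Std : List (Sl α) → Prop
  | nil : Std []
  | arc (p d : ℕ) {S : List (Sl α)} : Std S → Std (K p d ++ S)

/-- The values of an upper half `W` over all lower halves ending in the row `r`. -/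
def tail (fl : α → α) (f : List (Sl α) → M) (r : List α) (W : List (Sl α)) :
    List (Sl α) → M := fun A => if run fl [] A = some r then f (A ++ W) else 0

/-- The span of the standard upper halves. -/
def stdSpan (R : Type) [CommRing R] [Module R M] (fl : α → α) (f : List (Sl α) → M)
    (r : List α) : Submodule R (List (Sl α) → M) :=
  Submodule.span R {m | ∃ S, Std S ∧ run fl r S = some [] ∧ m = tail fl f r S}

def Good (R : Type) [CommRing R] [Module R M] (fl : α → α) (f : List (Sl α) → M)
    (r : List α) (W : List (Sl α)) : Prop := tail fl f r W ∈ stdSpan R fl f r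

theorem good_std {r : List α} {S : List (Sl α)} (h : Std S) (hr : run fl r S = some []) :
    Good R fl f r S := Submodule.subset_span ⟨S, h, hr, rfl⟩

theorem closed_app {A W : List (Sl α)} {r : List α} (hA : run fl [] A = some r)
    (hW : run fl r W = some []) : Closed fl (A ++ W) := by
  rw [closed_iff, run_append, hA]; exact hW

theorem good_rw {r : List α} {W W' : List (Sl α)} (h : Rw R fl f W W')
    (hr : run fl r W = some []) (hg : run fl r W' = some [] → Good R fl f r W') :
    Good R fl f r W := by
  obtain ⟨h1, c, hc⟩ := h
  have : tail fl f r W = c • tail fl f r W' := by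
    funext A
    simp only [tail, Pi.smul_apply]
    split_ifs with hA
    · simpa using hc A [] (by simpa using closed_app hA hr)
    · simp
  rw [Good, this]
  exact Submodule.smul_mem _ _ (hg (h1 _ _ hr))

theorem good_pre {r r' : List α} {P W : List (Sl α)} (hP : run fl r P = some r')
    (hW : Good R fl f r' W) (h : ∀ S, Std S → run fl r' S = some [] → Good R fl f r (P ++ S)) :
    Good R fl f r (P ++ W) := by
  let Φ : (List (Sl α) → M) →ₗ[R] (List (Sl α) → M) :=
    { toFun := fun ψ A => if run fl [] A = some r then ψ (A ++ P) else 0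
      map_add' := fun a b => by funext A; simp only [Pi.add_apply]; split_ifs <;> simp
      map_smul' := fun c a => by funext A; simp only [Pi.smul_apply]; split_ifs <;> simp }
  have key : ∀ V, tail fl f r (P ++ V) = Φ (tail fl f r' V) := fun V => by
    funext A
    simp only [tail, Φ, LinearMap.coe_mk, AddHom.coe_mk]
    split_ifs with h1 h2
    · rw [List.append_assoc]
    · exact absurd (by rw [run_append, h1]; exact hP) h2
    · rfl
  rw [Good, key]
  have : (stdSpan R fl f r').map Φ ≤ stdSpan R fl f r := by
    rw [stdSpan, Submodule.map_span_le]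
    rintro _ ⟨S, h1, h2, rfl⟩
    rw [← key]
    exact h S h1 h2
  exact this ⟨_, hW, rfl⟩

theorem run_K_length {r r' : List α} {p d : ℕ} (h : run fl r (K p d) = some r') :
    r'.length + 2 = r.length := by
  induction d generalizing r with
  | zero =>
    simp only [K, run_cons, run_nil, Option.bind_eq_some_iff] at h
    obtain ⟨a, h1, h2⟩ := h
    obtain rfl := Option.some.inj h2
    simpa [Sl.inn, Sl.out] using step_length h1
  | succ d ih =>
    simp only [K, run_cons, Option.bind_eq_some_iff] at h
    obtain ⟨a, h1, h2⟩ := h
    have := step_length h1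
    simp only [Sl.inn, Sl.out] at this
    have := ih h2
    omega

theorem good_K {r : List α} {p d : ℕ} {W : List (Sl α)} (h : run fl r (K p d ++ W) = some [])
    (hW : ∀ r', r'.length + 2 = r.length → run fl r' W = some [] → Good R fl f r' W) :
    Good R fl f r (K p d ++ W) := by
  rw [run_append, Option.bind_eq_some_iff] at h
  obtain ⟨r', h1, h2⟩ := h
  exact good_pre h1 (hW r' (run_K_length h1) h2) fun S hS hr =>
    good_std (Std.arc p d hS) (by rw [run_append, h1]; exact hr)

theorem step_cr {r r' : List α} {i : ℕ} {s : Bool} (h : step fl r (cr i s) = some r') :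
    ∃ x y t, r.drop i = x :: y :: t ∧ r' = r.take i ++ y :: x :: t := by
  simp only [step] at h
  rcases h3 : r.drop i with _ | ⟨x, _ | ⟨y, t⟩⟩ <;> rw [h3] at h <;> simp at h
  exact ⟨x, y, t, rfl, h.symm⟩

theorem run_capcup (hfl : Function.Involutive fl) {r : List α} {i : ℕ} {x : α} {t : List α}
    (h : r.drop i = x :: fl x :: t) :
    run fl r [cap i, cup i (fl x)] = some (r.take i ++ fl x :: x :: t) := by
  have hi : i ≤ r.length := by
    by_contra hc
    rw [List.drop_eq_nil_of_le (by omega)] at h
    cases h
  have hl : (r.take i).length = i := by simp [hi]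
  simp only [run_cons, run_nil, step, h, if_true, Option.bind_some, List.length_append, hl,
    Nat.le_add_right, hfl x]
  rw [List.take_left' hl, List.drop_left' hl]

theorem good_switch (H : Skein R fl f) {r : List α} {i : ℕ} {s : Bool} {B : List (Sl α)}
    (hr : run fl r (cr i s :: B) = some []) (h1 : Good R fl f r (cr i (!s) :: B))
    (h2 : run fl r B = some [] → Good R fl f r B)
    (h3 : ∀ y, run fl r (cap i :: cup i y :: B) = some [] →
      Good R fl f r (cap i :: cup i y :: B)) : Good R fl f r (cr i s :: B) := by
  have hr' := hr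
  rw [run_cons, Option.bind_eq_some_iff] at hr'
  obtain ⟨r', h4, h5⟩ := hr'
  obtain ⟨x, y, t, h6, rfl⟩ := step_cr h4
  obtain ⟨c1, c2, c3, e2, e3, hs⟩ := H.switch x y s
  have : tail fl f r (cr i s :: B) = c1 • tail fl f r (cr i (!s) :: B) + c2 • tail fl f r B +
      c3 • tail fl f r (cap i :: cup i y :: B) := by
    funext A
    simp only [tail, Pi.smul_apply, Pi.add_apply]
    split_ifs with hA
    · exact hs A B i r t hA h6 (closed_app hA hr)
    · simp
  rw [Good, this]
  refine Submodule.add_mem _ (Submodule.add_mem _ (Submodule.smul_mem _ _ h1) ?_) ?_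
  · by_cases hxy : x = y
    · subst hxy
      rw [← h6, List.take_append_drop] at h5
      exact Submodule.smul_mem _ _ (h2 h5)
    · rw [e2 hxy, zero_smul]; exact Submodule.zero_mem _
  · by_cases hxy : y = fl x
    · subst hxy
      refine Submodule.smul_mem _ _ (h3 _ ?_)
      have := run_append fl r [cap i, cup i (fl x)] B
      rw [run_capcup H.inv h6] at this
      exact this.trans h5
    · rw [e3 hxy, zero_smul]; exact Submodule.zero_mem _

/-- A crossing below a standard upper half of width `k`. -/
def CR (R : Type) [CommRing R] [Module R M] (fl : α → α) (f : List (Sl α) → M) (k : ℕ) : Prop :=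
  ∀ r : List α, r.length = k → ∀ i s S, Std S → run fl r (cr i s :: S) = some [] →
    Good R fl f r (cr i s :: S)

/-- A minimum, with `k` strands below it, below a standard upper half. -/
def CU (R : Type) [CommRing R] [Module R M] (fl : α → α) (f : List (Sl α) → M) (k : ℕ) : Prop :=
  ∀ r : List α, r.length = k → ∀ i o S, Std S → run fl r (cup i o :: S) = some [] →
    Good R fl f r (cup i o :: S)

theorem good_br {k : ℕ} (h : CR R fl f k) {β : List (Sl α)} (hβ : Br β) {S : List (Sl α)}
    (hS : Std S) (r : List α) (hk : r.length = k) (hr : run fl r (β ++ S) = some []) :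
    Good R fl f r (β ++ S) := by
  induction β generalizing r with
  | nil => exact good_std hS hr
  | cons c β ih =>
    obtain ⟨i, s, rfl⟩ := hβ c List.mem_cons_self
    rw [List.cons_append, run_cons, Option.bind_eq_some_iff] at hr
    obtain ⟨r', h1, h2⟩ := hr
    have hl := step_length h1
    simp only [Sl.inn, Sl.out] at hl
    have h3 : run fl r [cr i s] = some r' := by simp [run_cons, run_nil, h1]
    exact good_pre (P := [cr i s]) (W := β ++ S) h3
      (ih (fun c hc => hβ c (List.mem_cons_of_mem _ hc)) r' (by omega) h2)
      fun S' hS' hr' => h r hk i s S' hS' (by rw [run_cons, h1]; exact hr')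

theorem cr_step (H : Skein R fl f) {k : ℕ} (ih : ∀ j, j + 2 = k → CR R fl f j ∧ CU R fl f j) :
    CR R fl f k := by
  intro r hk i s S hS hr
  cases hS with
  | nil =>
    rw [run_cons, Option.bind_eq_some_iff] at hr
    obtain ⟨r', h1, h2⟩ := hr
    obtain ⟨x, y, t, -, rfl⟩ := step_cr h1
    simp [run_nil] at h2
  | @arc p d S hS =>
    obtain ⟨s0, p', d', β, hβ, h⟩ := cr_case H i p d
    have hr0 : run fl r (cr i s0 :: (K p d ++ S)) = some [] := by
      rw [run_cons] at hr ⊢; exact hr
    have h0 : Good R fl f r (cr i s0 :: (K p d ++ S)) := by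
      refine good_rw (h.app S) hr0 fun h1 => ?_
      rw [List.append_assoc] at h1 ⊢
      exact good_K h1 fun r' h2 h3 => good_br (ih _ (h2.trans hk)).1 hβ hS r' rfl h3
    by_cases hs : s = s0
    · rw [hs]; exact h0
    have hs' : s0 = !s := by cases s <;> cases s0 <;> simp_all
    refine good_switch H hr (hs' ▸ h0) (good_std (Std.arc p d hS)) fun y h1 => ?_
    exact good_K (p := i) (d := 0) h1 fun r' h2 h3 =>
      (ih _ (h2.trans hk)).2 r' rfl i y _ (Std.arc p d hS) h3

theorem cu_step (H : Skein R fl f) {k : ℕ} (h0 : CR R fl f k)
    (ih : ∀ j, j + 2 = k → CU R fl f j) : CU R fl f k := by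
  intro r hk i o S hS hr
  cases hS with
  | nil =>
    rw [run_cons, Option.bind_eq_some_iff] at hr
    obtain ⟨r', h1, h2⟩ := hr
    have := step_length h1
    obtain rfl := Option.some.inj h2
    simp [Sl.inn, Sl.out] at this
  | @arc p d S hS =>
    rcases cup_case H i o p d with ⟨β, hβ, h⟩ | ⟨p', d', i', h⟩
    · exact good_rw (h.app S) hr fun h1 => good_br h0 hβ hS r hk h1
    · refine good_rw (h.app S) hr fun h1 => ?_
      rw [List.append_assoc] at h1 ⊢
      exact good_K h1 fun r' h2 h3 => ih _ (h2.trans hk) r' rfl i' o S hS h3

theorem cr_cu (H : Skein R fl f) (k : ℕ) : CR R fl f k ∧ CU R fl f k := by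
  induction k using Nat.strong_induction_on with
  | _ k ih =>
    have h := cr_step H (k := k) fun j hj => ih j (by omega)
    exact ⟨h, cu_step H h fun j hj => (ih j (by omega)).2⟩

theorem good_all (H : Skein R fl f) (W : List (Sl α)) (r : List α) (hr : run fl r W = some []) :
    Good R fl f r W := by
  induction W generalizing r with
  | nil => exact good_std Std.nil hr
  | cons c W ih =>
    rw [run_cons, Option.bind_eq_some_iff] at hr
    obtain ⟨r', h1, h2⟩ := hr
    have h3 : run fl r [c] = some r' := by simp [run_cons, run_nil, h1]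
    refine good_pre h3 (ih r' h2) fun S hS hr' => ?_
    have h4 : run fl r (c :: S) = some [] := by rw [run_cons, h1]; exact hr'
    cases c with
    | cup i o => exact (cr_cu H _).2 r rfl i o S hS h4
    | cap i => exact good_std (Std.arc i 0 hS) h4
    | cr i s => exact (cr_cu H _).1 r rfl i s S hS h4

theorem std_two {x y : α} {S : List (Sl α)} (hS : Std S) (h : run fl [x, y] S = some []) :
    S = [cap 0] := by
  cases hS with
  | nil => simp [run_nil] at h
  | @arc p d S hS =>
    rw [run_append, Option.bind_eq_some_iff] at h
    obtain ⟨r', h1, h2⟩ := h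
    have hl := run_K_length h1
    obtain rfl : r' = [] := List.length_eq_zero_iff.1 (by simpa using hl)
    obtain rfl : S = [] := by
      cases hS with
      | nil => rfl
      | arc p' d' hS' =>
        rw [run_append, Option.bind_eq_some_iff] at h2
        obtain ⟨r'', h3, -⟩ := h2
        simpa using run_K_length h3
    rcases d with _ | d
    · rcases p with _ | _ | p
      · rfl
      all_goals simp [K, run_cons, step] at h1
    · exfalso
      simp only [K, run_cons, Option.bind_eq_some_iff] at h1
      obtain ⟨a, h3, -⟩ := h1
      obtain ⟨u, v, t, h4, -⟩ := step_cr h3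
      have := congrArg List.length h4
      simp only [List.length_drop, List.length_cons, List.length_nil] at this
      omega

/-- A non-empty closed word evaluates to a multiple of the value of a round circle. -/
theorem closed_mul (H : Skein R fl f) {D : List (Sl α)} (hD : Closed fl D) (hne : D ≠ []) :
    ∃ (o : α) (c : R), f D = c • f [cup 0 o, cap 0] := by
  obtain ⟨c, W, rfl⟩ := List.exists_cons_of_ne_nil hne
  rw [closed_iff, run_cons, Option.bind_eq_some_iff] at hD
  obtain ⟨r, h1, h2⟩ := hD
  cases c with
  | cap i => simp [step] at h1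
  | cr i s => simp [step] at h1
  | cup i o =>
    simp only [step, List.length_nil, Nat.le_zero_eq] at h1
    split_ifs at h1 with hi
    subst hi
    obtain rfl : [o, fl o] = r := by simpa using h1
    have hg := good_all H W _ h2
    have : stdSpan R fl f [o, fl o] ≤ Submodule.span R {tail fl f [o, fl o] [cap 0]} := by
      refine Submodule.span_mono ?_
      rintro _ ⟨S, h3, h4, rfl⟩
      rw [std_two h3 h4]; rfl
    obtain ⟨c, hc⟩ := Submodule.mem_span_singleton.1 (this hg)
    refine ⟨o, c, ?_⟩
    have h5 := congrFun hc [cup 0 o]
    have h6 : run fl [] [cup 0 o] = some [o, fl o] := by simp [run_cons, run_nil, step]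
    simpa [tail, h6] using h5.symm

end Pool.Agent.P.MP_7f6fde_gt.Ex
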