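import Pool.Agent.P.MP_7f6fde_gt.Ex.Span

/-! Vertex models: transfer operators on coloured rows and the local moves. -/

namespace Pool.Agent.P.MP_7f6fde_gt.Ex

open Sl Finset

/-- Colours with labels, a duality, weights of minima, maxima and crossings. -/
structure VM (α I : Type) where
  lab : I → α
  du : I → I
  u : I → ℂ
  v : I → ℂ
  G : Bool → I → I → I → I → ℂ

variable {α I : Type} [DecidableEq α] [Fintype I] [DecidableEq I] {fl : α → α}

/-- The weight of one slice applied to a function of the colours above it. -/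
noncomputable def VM.op (m : VM α I) : Sl α → (List I → ℂ) → List I → ℂ
  | cup i o, φ, s => if i ≤ s.length then
      ∑ c, if m.lab c = o then m.u c * φ (s.take i ++ c :: m.du c :: s.drop i) else 0 else 0
  | cap i, φ, s => match s.drop i with
    | c :: d :: t => if d = m.du c then m.v c * φ (s.take i ++ t) else 0
    | _ => 0
  | cr i b, φ, s => match s.drop i with
    | c :: d :: t => ∑ k, ∑ l, m.G b c d k l * φ (s.take i ++ k :: l :: t)
    | _ => 0

noncomputable def VM.ops (m : VM α I) (W : List (Sl α)) (φ : List I → ℂ) : List I → ℂ :=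
  W.foldr m.op φ

/-- The state sum of a word. -/
noncomputable def VM.amp (m : VM α I) (D : List (Sl α)) : ℂ :=
  m.ops D (fun s => if s = [] then 1 else 0) []

variable (m : VM α I)

theorem VM.ops_nil (φ : List I → ℂ) : m.ops [] φ = φ := rfl

theorem VM.ops_cons (c : Sl α) (W : List (Sl α)) (φ : List I → ℂ) :
    m.ops (c :: W) φ = m.op c (m.ops W φ) := rfl

theorem VM.ops_append (A B : List (Sl α)) (φ : List I → ℂ) :
    m.ops (A ++ B) φ = m.ops A (m.ops B φ) := by simp [VM.ops]

theorem VM.op_shift (x : I) (s : List I) (c : Sl α) (i : ℕ) (φ : List I → ℂ) :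
    m.op (c.at (i + 1)) φ (x :: s) = m.op (c.at i) (fun s' => φ (x :: s')) s := by
  cases c with
  | cup j o => simp [Sl.at, VM.op]
  | cap j => simp only [Sl.at, VM.op, List.drop_succ_cons, List.take_succ_cons, List.cons_append]
  | cr j s => simp only [Sl.at, VM.op, List.drop_succ_cons, List.take_succ_cons, List.cons_append]

theorem VM.ops_sh (x : I) (s : List I) (W : List (Sl α)) (φ : List I → ℂ) :
    m.ops (sh W) φ (x :: s) = m.ops W (fun s' => φ (x :: s')) s := by
  induction W generalizing s with
  | nil => rfl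
  | cons c W ih =>
    have h := m.op_shift x s c c.pos (m.ops (sh W) φ)
    rw [at_pos] at h
    have e : (fun s' => m.ops (sh W) φ (x :: s')) = m.ops W (fun s' => φ (x :: s')) := funext ih
    rw [e] at h
    exact h

theorem VM.op_lin (c : Sl α) (a b : ℂ) (φ ψ : List I → ℂ) (s : List I) :
    m.op c (fun s => a * φ s + b * ψ s) s = a * m.op c φ s + b * m.op c ψ s := by
  cases c with
  | cup i o =>
    simp only [VM.op]
    split_ifs
    · rw [mul_sum, mul_sum, ← sum_add_distrib]
      refine sum_congr rfl fun c _ => ?_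
      split_ifs <;> ring
    · ring
  | cap i =>
    simp only [VM.op]
    rcases s.drop i with _ | ⟨c, _ | ⟨d, t⟩⟩ <;> simp only
    · ring
    · ring
    · split_ifs <;> ring
  | cr i b =>
    simp only [VM.op]
    rcases s.drop i with _ | ⟨c, _ | ⟨d, t⟩⟩ <;> simp only
    · ring
    · ring
    · simp only [mul_sum, ← sum_add_distrib]
      exact sum_congr rfl fun k _ => sum_congr rfl fun l _ => by ring

theorem VM.ops_lin (W : List (Sl α)) (a b : ℂ) (φ ψ : List I → ℂ) :
    m.ops W (fun s => a * φ s + b * ψ s) = fun s => a * m.ops W φ s + b * m.ops W ψ s := by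
  induction W with
  | nil => rfl
  | cons c W ih => rw [VM.ops_cons, ih]; funext s; exact m.op_lin c a b _ _ s

/-- Crossing weights on the first two of three strands. -/
def A1 (G : I → I → I → I → ℂ) : Matrix (I × I × I) (I × I × I) ℂ :=
  Matrix.of fun x y => if y.2.2 = x.2.2 then G x.1 x.2.1 y.1 y.2.1 else 0

/-- Crossing weights on the last two of three strands. -/
def A2 (G : I → I → I → I → ℂ) : Matrix (I × I × I) (I × I × I) ℂ :=
  Matrix.of fun x y => if y.1 = x.1 then G x.2.1 x.2.2 y.2.1 y.2.2 else 0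

/-- The identities which make the state sum invariant under planar isotopy. -/
structure VM.Pl (m : VM α I) (fl : α → α) : Prop where
  du_du : ∀ c, m.du (m.du c) = c
  lab_du : ∀ c, m.lab (m.du c) = fl (m.lab c)
  uv : ∀ c, m.u (m.du c) * m.v c = 1
  lab_G : ∀ b c d k l, m.G b c d k l ≠ 0 → m.lab k = m.lab d ∧ m.lab l = m.lab c
  rot : ∀ b x k l n, m.u (m.du n) * m.G b x (m.du n) k l = m.u k * m.G (!b) (m.du k) x l n

variable {m}

theorem VM.Pl.op_congr (H : m.Pl fl) {r r' : List α} {c : Sl α} (h : step fl r c = some r')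
    {φ ψ : List I → ℂ} (e : ∀ s, s.map m.lab = r' → φ s = ψ s) {s : List I}
    (hs : s.map m.lab = r) : m.op c φ s = m.op c ψ s := by
  subst hs
  cases c with
  | cup i o =>
    simp only [step, List.length_map] at h
    simp only [VM.op]
    split_ifs at h ⊢ with h1
    refine sum_congr rfl fun c _ => ?_
    split_ifs with h2
    · rw [e]
      rw [← Option.some.inj h]
      simp [H.lab_du, h2, List.map_take, List.map_drop]
    · rfl
  | cap i =>
    simp only [step, ← List.map_drop] at h
    simp only [VM.op]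
    rcases h3 : s.drop i with _ | ⟨c, _ | ⟨d, t⟩⟩ <;> rw [h3] at h <;> simp at h
    simp only
    rw [e]
    rw [← h.2]
    simp [List.map_take]
  | cr i b =>
    simp only [step, ← List.map_drop] at h
    simp only [VM.op]
    rcases h3 : s.drop i with _ | ⟨c, _ | ⟨d, t⟩⟩ <;> rw [h3] at h <;> simp at h
    simp only
    refine sum_congr rfl fun k _ => sum_congr rfl fun l _ => ?_
    by_cases hG : m.G b c d k l = 0
    · simp [hG]
    · rw [e]
      rw [← h]
      simp [List.map_take, H.lab_G b c d k l hG]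

theorem VM.Pl.ops_congr (H : m.Pl fl) {r r' : List α} {W : List (Sl α)}
    (h : run fl r W = some r') {φ ψ : List I → ℂ} (e : ∀ s, s.map m.lab = r' → φ s = ψ s)
    {s : List I} (hs : s.map m.lab = r) : m.ops W φ s = m.ops W ψ s := by
  induction W generalizing r s with
  | nil => exact e s (hs.trans (Option.some.inj h))
  | cons c W ih =>
    rw [run_cons, Option.bind_eq_some_iff] at h
    obtain ⟨a, h1, h2⟩ := h
    exact H.op_congr h1 (fun s' hs' => ih h2 hs') hs

/-- `L` acts as `a` times `R` on every coloured row on which `L` can be read. -/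
def VM.Eqv (m : VM α I) (fl : α → α) (a : ℂ) (L R : List (Sl α)) : Prop :=
  ∀ φ s r', run fl (s.map m.lab) L = some r' → m.ops L φ s = a * m.ops R φ s

theorem VM.Pl.amp_eqv (H : m.Pl fl) {a : ℂ} {L R : List (Sl α)} (h : m.Eqv fl a L R)
    {A B : List (Sl α)} (hc : Closed fl (A ++ L ++ B)) :
    m.amp (A ++ L ++ B) = a * m.amp (A ++ R ++ B) := by
  rw [closed_iff] at hc
  simp only [run_append, Option.bind_eq_some_iff] at hc
  obtain ⟨r', ⟨r, h1, h2⟩, -⟩ := hc
  simp only [VM.amp, VM.ops_append]
  generalize m.ops B _ = φ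
  have := congrFun (m.ops_lin A a 0 (m.ops R φ) φ) []
  simp only [zero_mul, add_zero] at this
  rw [← this]
  exact H.ops_congr h1 (fun s hs => h φ s r' (hs ▸ h2)) rfl

theorem VM.eqv_of_zero {a : ℂ} (L R : ℕ → List (Sl α)) (hL : ∀ i, L (i + 1) = sh (L i))
    (hR : ∀ i, R (i + 1) = sh (R i)) (hne : ∀ i, L i ≠ []) (h0 : m.Eqv fl a (L 0) (R 0)) (i : ℕ) :
    m.Eqv fl a (L i) (R i) := by
  induction i with
  | zero => exact h0
  | succ i ih =>
    rw [hL, hR]
    intro φ s r' hr
    cases s with
    | nil =>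
      obtain ⟨c, w, h⟩ := List.exists_cons_of_ne_nil (hne i)
      rw [h, List.map_nil, run_sh_nil] at hr; cases hr
    | cons x s =>
      rw [List.map_cons, run_sh] at hr
      obtain ⟨u, hu, -⟩ := Option.map_eq_some_iff.1 hr
      rw [m.ops_sh, m.ops_sh]
      exact ih _ s u hu

theorem VM.op_cup0 (o : α) (φ : List I → ℂ) (s : List I) :
    m.op (cup 0 o) φ s = ∑ c, if m.lab c = o then m.u c * φ (c :: m.du c :: s) else 0 := by
  simp [VM.op]

theorem VM.op_cap0 (φ : List I → ℂ) (c d : I) (s : List I) :
    m.op (cap 0) φ (c :: d :: s) = if d = m.du c then m.v c * φ s else 0 := by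
  simp [VM.op]

theorem VM.op_cr0 (b : Bool) (φ : List I → ℂ) (c d : I) (s : List I) :
    m.op (cr 0 b) φ (c :: d :: s) = ∑ k, ∑ l, m.G b c d k l * φ (k :: l :: s) := by
  simp [VM.op]

theorem VM.op_cup1 (o : α) (φ : List I → ℂ) (x : I) (s : List I) :
    m.op (cup (0 + 1) o) φ (x :: s) =
      ∑ c, if m.lab c = o then m.u c * φ (x :: c :: m.du c :: s) else 0 := by
  simp [VM.op]

theorem VM.op_cap1 (φ : List I → ℂ) (x c d : I) (s : List I) :
    m.op (cap (0 + 1)) φ (x :: c :: d :: s) = if d = m.du c then m.v c * φ (x :: s) else 0 := by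
  simp [VM.op]

theorem VM.op_cr1 (b : Bool) (φ : List I → ℂ) (x c d : I) (s : List I) :
    m.op (cr (0 + 1) b) φ (x :: c :: d :: s) =
      ∑ k, ∑ l, m.G b c d k l * φ (x :: k :: l :: s) := by
  simp [VM.op]

theorem VM.op_sum {J : Type} [Fintype J] (c : Sl α) (a : J → ℂ) (φ : J → List I → ℂ)
    (s : List I) : m.op c (fun s => ∑ j, a j * φ j s) s = ∑ j, a j * m.op c (φ j) s := by
  classical
  have : ∀ T : Finset J, m.op c (fun s => ∑ j ∈ T, a j * φ j s) s =
      ∑ j ∈ T, a j * m.op c (φ j) s := fun T => by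
    induction T using Finset.induction_on with
    | empty => simpa using m.op_lin c 0 0 (fun _ => 0) (fun _ => 0) s
    | insert j T hj ih =>
      simp only [sum_insert hj]
      rw [← ih]
      simpa using m.op_lin c (a j) 1 (φ j) (fun s => ∑ j ∈ T, a j * φ j s) s
  exact this univ

end Pool.Agent.P.MP_7f6fde_gt.Ex
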