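import Pool.Agent.P.MP_7f6fde_gt.Ex.Ortho

/-! Reidemeister II and III for the orthogonal model. -/

namespace Pool.Agent.P.MP_7f6fde_gt.Ex

open Sl Finset

theorem mul3_zero {J : Type} [Fintype J] {A B C : Matrix J J ℂ} {x y : J}
    (h : ∀ u w, A x u ≠ 0 → B u w ≠ 0 → C w y ≠ 0 → False) : (A * B * C) x y = 0 := by
  simp only [Matrix.mul_apply, sum_mul]
  refine sum_eq_zero fun w _ => sum_eq_zero fun u _ => ?_
  by_contra h1
  simp only [mul_eq_zero, not_or] at h1
  exact h u w h1.1.1 h1.1.2 h1.2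

theorem mul3_single {J : Type} [Fintype J] {A B C : Matrix J J ℂ} {x y : J} (u0 w0 : J)
    (h : ∀ u w, A x u ≠ 0 → B u w ≠ 0 → C w y ≠ 0 → u = u0 ∧ w = w0) :
    (A * B * C) x y = A x u0 * B u0 w0 * C w0 y := by
  have h0 : ∀ u w, ¬ (u = u0 ∧ w = w0) → A x u * B u w * C w y = 0 := fun u w h1 => by
    by_contra h2
    simp only [mul_eq_zero, not_or] at h2
    exact h1 (h u w h2.1.1 h2.1.2 h2.2)
  simp only [Matrix.mul_apply, sum_mul]
  rw [sum_eq_single w0 (fun w _ hw => sum_eq_zero fun u _ => h0 u w fun h => hw h.2) (by simp),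
    sum_eq_single u0 (fun u _ hu => h0 u w0 fun h => hu h.1) (by simp)]

theorem mul3_scale {J : Type} [Fintype J] {A B C A' B' C' : Matrix J J ℂ} {x y : J} {κ : ℂ}
    (h : ∀ u w, A' x u * B' u w * C' w y = κ * (A x u * B u w * C w y)) :
    (A' * B' * C') x y = κ * (A * B * C) x y := by
  simp only [Matrix.mul_apply, sum_mul, mul_sum, h]

theorem yb_ring {S : Type} [Ring S] {F1 F2 D1 D2 : S}
    (h1 : D1 * (F2 + D2) * (F1 + D1) = (F2 + D2) * (F1 + D1) * D2)
    (h2 : F1 * D2 * (F1 + D1) = (F2 + D2) * D1 * F2) (h3 : F1 * F2 * D1 = D2 * F1 * F2) :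
    (F1 + D1) * (F2 + D2) * (F1 + D1) - (F2 + D2) * (F1 + D1) * (F2 + D2) =
      F1 * F2 * F1 - F2 * F1 * F2 := by
  have : (F1 + D1) * (F2 + D2) * (F1 + D1) - (F2 + D2) * (F1 + D1) * (F2 + D2) =
      F1 * F2 * F1 - F2 * F1 * F2 + (D1 * (F2 + D2) * (F1 + D1) - (F2 + D2) * (F1 + D1) * D2) +
      (F1 * D2 * (F1 + D1) - (F2 + D2) * D1 * F2) + (F1 * F2 * D1 - D2 * F1 * F2) := by
    noncomm_ring
  rw [this, h1, h2, h3]; simp

variable {I : Type} [LinearOrder I] [Fintype I]

omit [Fintype I] in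
theorem A1_ne {G : I → I → I → I → ℂ} {x y : I × I × I} (h : A1 G x y ≠ 0) :
    y.2.2 = x.2.2 ∧ G x.1 x.2.1 y.1 y.2.1 ≠ 0 := by
  simpa [A1] using h

omit [Fintype I] in
theorem A2_ne {G : I → I → I → I → ℂ} {x y : I × I × I} (h : A2 G x y ≠ 0) :
    y.1 = x.1 ∧ G x.2.1 x.2.2 y.2.1 y.2.2 ≠ 0 := by
  simpa [A2] using h

namespace Dat

variable (X : Dat I)

theorem comm2 (c d p n : I) : ∑ k, ∑ l, X.G true c d k l * X.G false k l p n =
    ∑ k, ∑ l, X.G false c d k l * X.G true k l p n := by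
  have e1 : ∀ c d k l, X.G false c d k l = X.G true c d k l -
      (if k = c then if l = d then X.z else 0 else 0) +
      X.z * if d = X.du c then if l = X.du k then X.w c * X.w k else 0 else 0 := fun c d k l => by
    rw [X.skein]
    simp only [ite_and]
    split_ifs <;> ring
  have h1 : ∑ k, ∑ l, X.G true c d k l *
      (X.z * if l = X.du k then if n = X.du p then X.w k * X.w p else 0 else 0) =
      X.z * (if n = X.du p then X.w p else 0) * ∑ k, X.G true c d k (X.du k) * X.w k := by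
    rw [mul_sum]
    refine sum_congr rfl fun k _ => ?_
    simp only [mul_ite, mul_zero, sum_ite_eq', mem_univ, if_true]
    split_ifs <;> ring
  have h2 : ∑ k, ∑ l, (X.z * if d = X.du c then if l = X.du k then X.w c * X.w k else 0 else 0) *
      X.G true k l p n =
      X.z * (if d = X.du c then X.w c else 0) * ∑ k, X.w k * X.G true k (X.du k) p n := by
    rw [mul_sum]
    refine sum_congr rfl fun k _ => ?_
    split_ifs
    · simp only [mul_ite, mul_zero, ite_mul, zero_mul, sum_ite_eq', mem_univ, if_true]; ring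
    · simp
  have h3 : ∑ k, X.w k * X.G true k (X.du k) p n = if n = X.du p then X.a⁻¹ * X.w p else 0 :=
    X.pl.cup_sum (b := true) X.curlT p n
  simp only [e1, mul_add, add_mul, mul_sub, sub_mul, sum_add_distrib, sum_sub_distrib, h1, h2, h3,
    X.curlT]
  simp only [mul_ite, ite_mul, mul_zero, zero_mul, sum_ite_irrel, sum_ite_eq, sum_ite_eq',
    mem_univ, if_true, sum_const_zero]
  split_ifs <;> ring

theorem twoT (c d p n : I) : ∑ k, ∑ l, X.G true c d k l * X.G false k l p n =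
    if p = c ∧ n = d then 1 else 0 := by
  rcases lt_trichotomy p c with h | rfl | h
  · rw [if_neg (fun h' => h.ne h'.1)]
    refine sum_eq_zero fun k _ => sum_eq_zero fun l _ => ?_
    by_contra h1
    simp only [mul_eq_zero, not_or] at h1
    rcases X.triT h1.1 with h2 | h2 <;> rcases X.triF h1.2 with h3 | h3 <;> order
  · have h0 : ∀ k l, ¬ (k = d ∧ l = p ∧ n = d) → X.G true p d k l * X.G false k l p n = 0 :=
      fun k l hkl => by
        by_contra h1
        simp only [mul_eq_zero, not_or] at h1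
        apply hkl
        rcases X.triT h1.1 with h2 | h2 <;> rcases X.triF h1.2 with h3 | h3 <;>
          refine ⟨?_, ?_, ?_⟩ <;> order
    rw [sum_eq_single d (fun k _ hk => sum_eq_zero fun l _ => h0 k l fun h => hk h.1) (by simp),
      sum_eq_single p (fun l _ hl => h0 d l fun h => hl h.2.1) (by simp)]
    by_cases hn : n = d
    · subst hn
      rw [X.G_swap, X.G_swap, X.sw_symm false, if_pos ⟨rfl, rfl⟩]
      exact X.sw_mul true p n
    · rw [h0 d p fun h => hn h.2.2, if_neg fun h => hn h.2]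
  · rw [if_neg (fun h' => h.ne' h'.1), X.comm2]
    refine sum_eq_zero fun k _ => sum_eq_zero fun l _ => ?_
    by_contra h1
    simp only [mul_eq_zero, not_or] at h1
    rcases X.triF h1.1 with h2 | h2 <;> rcases X.triT h1.2 with h3 | h3 <;> order

theorem two (b : Bool) (c d p n : I) : ∑ k, ∑ l, X.G b c d k l * X.G (!b) k l p n =
    if p = c ∧ n = d then 1 else 0 := by
  cases b
  · exact (X.comm2 c d p n).symm.trans (X.twoT c d p n)
  · exact X.twoT c d p n

noncomputable def P1 : Matrix (I × I × I) I ℂ :=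
  Matrix.of fun x e => if x.2.2 = e then if x.2.1 = X.du x.1 then X.w x.1 else 0 else 0

noncomputable def P2 : Matrix (I × I × I) I ℂ :=
  Matrix.of fun x c => if x.1 = c then if x.2.2 = X.du x.2.1 then X.w x.2.1 else 0 else 0

theorem A1_skein : A1 (X.G true) = A1 (X.G false) + X.z • (1 - X.P1 * X.P1.transpose) := by
  ext ⟨c, d, e⟩ ⟨k, l, n⟩
  simp only [A1, P1, Matrix.of_apply, Matrix.add_apply, Matrix.smul_apply, Matrix.sub_apply,
    Matrix.mul_apply, Matrix.transpose_apply, Matrix.one_apply, X.skein, Prod.mk.injEq, ite_mul,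
    zero_mul, smul_eq_mul, eq_comm (a := c), eq_comm (a := e),
    eq_comm (a := d) (b := l)]
  by_cases h : n = e <;> simp [h, ite_and]

theorem A2_skein : A2 (X.G true) = A2 (X.G false) + X.z • (1 - X.P2 * X.P2.transpose) := by
  ext ⟨c, d, e⟩ ⟨k, l, n⟩
  simp only [A2, P2, Matrix.of_apply, Matrix.add_apply, Matrix.smul_apply, Matrix.sub_apply,
    Matrix.mul_apply, Matrix.transpose_apply, Matrix.one_apply, X.skein, Prod.mk.injEq, ite_mul,
    zero_mul, smul_eq_mul, eq_comm (a := c),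
    eq_comm (a := e) (b := n), eq_comm (a := d) (b := l)]
  by_cases h : k = c <;> simp [h, ite_and]

theorem A1_two (b : Bool) : A1 (X.G b) * A1 (X.G (!b)) = 1 := by
  ext ⟨c, d, e⟩ ⟨k, l, n⟩
  simp only [A1, Matrix.of_apply, Matrix.mul_apply, Fintype.sum_prod_type, ite_mul, zero_mul,
    sum_ite_eq', mem_univ, if_true, Matrix.one_apply, Prod.mk.injEq]
  by_cases h : n = e
  · simp [h, X.two, eq_comm]
  · simp [h, Ne.symm h]

theorem A2_two (b : Bool) : A2 (X.G b) * A2 (X.G (!b)) = 1 := by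
  ext ⟨c, d, e⟩ ⟨k, l, n⟩
  simp only [A2, Matrix.of_apply, Matrix.mul_apply, Fintype.sum_prod_type, ite_mul, zero_mul,
    sum_ite_irrel, sum_const_zero, sum_ite_eq', mem_univ, if_true, Matrix.one_apply, Prod.mk.injEq]
  by_cases h : k = c
  · simp [h, X.two, eq_comm]
  · simp [h, Ne.symm h]

theorem U2_A1 (b : Bool) :
    X.P2.transpose * A1 (X.G b) = X.P1.transpose * A2 (X.G (!b)) := by
  ext x ⟨k, l, n⟩
  have := X.rot b x k l n
  simp only [A1, A2, P1, P2, Matrix.of_apply, Matrix.mul_apply, Matrix.transpose_apply,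
    Fintype.sum_prod_type, ite_mul, zero_mul, sum_ite_irrel, sum_const_zero, sum_ite_eq',
    mem_univ, if_true, mul_ite, mul_zero, sum_ite_eq, X.eq_du (c := n), this]

theorem A1_P2 (b : Bool) : A1 (X.G b) * X.P2 = A2 (X.G (!b)) * X.P1 := by
  ext ⟨x, y, w⟩ k
  have := X.pl.rot' b x y w k
  simp only [vm] at this
  have e : ∀ c, X.du c = w ↔ c = X.du w := fun c => eq_comm.trans X.eq_du
  simp only [A1, A2, P1, P2, Matrix.of_apply, Matrix.mul_apply,
    Fintype.sum_prod_type, ite_mul, zero_mul, sum_ite_irrel, sum_const_zero, sum_ite_eq',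
    mem_univ, if_true, mul_ite, mul_zero, e]
  linear_combination this

theorem yb_eq : A1 (X.G true) * A2 (X.G true) * A1 (X.G true) -
    A2 (X.G true) * A1 (X.G true) * A2 (X.G true) =
    A1 (X.G false) * A2 (X.G false) * A1 (X.G false) -
    A2 (X.G false) * A1 (X.G false) * A2 (X.G false) := by
  have c1 : X.P2.transpose * A1 (X.G true) = X.P1.transpose * A2 (X.G false) := X.U2_A1 true
  have c2 : X.P2.transpose * A1 (X.G false) = X.P1.transpose * A2 (X.G true) := X.U2_A1 false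
  have d1 : A1 (X.G true) * X.P2 = A2 (X.G false) * X.P1 := X.A1_P2 true
  have d2 : A1 (X.G false) * X.P2 = A2 (X.G true) * X.P1 := X.A1_P2 false
  have a1 : A1 (X.G false) * A1 (X.G true) = 1 := X.A1_two false
  have a2 : A2 (X.G true) * A2 (X.G false) = 1 := X.A2_two true
  have e1 : X.P1 * X.P1.transpose * A2 (X.G true) * A1 (X.G true) = X.P1 * X.P2.transpose := by
    rw [Matrix.mul_assoc X.P1, ← c2, Matrix.mul_assoc, Matrix.mul_assoc, a1, Matrix.mul_one]
  have e2 : A2 (X.G true) * A1 (X.G true) * (X.P2 * X.P2.transpose) = X.P1 * X.P2.transpose := by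
    rw [← Matrix.mul_assoc, Matrix.mul_assoc (A2 _), d1, ← Matrix.mul_assoc, a2, Matrix.one_mul]
  have e3 : A1 (X.G false) * (X.P2 * X.P2.transpose) * A1 (X.G true) =
      A2 (X.G true) * (X.P1 * X.P1.transpose) * A2 (X.G false) := by
    rw [← Matrix.mul_assoc, d2, Matrix.mul_assoc, c1]
    simp only [Matrix.mul_assoc]
  have e4 : A1 (X.G false) * A2 (X.G false) * (X.P1 * X.P1.transpose) = X.P2 * X.P1.transpose := by
    rw [← Matrix.mul_assoc, Matrix.mul_assoc (A1 _), ← d1, ← Matrix.mul_assoc, a1, Matrix.one_mul]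
  have e5 : X.P2 * X.P2.transpose * A1 (X.G false) * A2 (X.G false) = X.P2 * X.P1.transpose := by
    rw [Matrix.mul_assoc X.P2, c2, Matrix.mul_assoc, Matrix.mul_assoc, a2, Matrix.mul_one]
  have h := yb_ring (F1 := A1 (X.G false)) (F2 := A2 (X.G false))
    (D1 := X.z • (1 - X.P1 * X.P1.transpose)) (D2 := X.z • (1 - X.P2 * X.P2.transpose))
  rw [← X.A1_skein, ← X.A2_skein] at h
  refine h ?_ ?_ ?_ <;>
    simp only [smul_mul_assoc, mul_smul_comm, sub_mul, mul_sub, one_mul, mul_one, e1, e2, e3, e4,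
      e5, a1, a2]

theorem threeT : A1 (X.G true) * A2 (X.G true) * A1 (X.G true) =
    A2 (X.G true) * A1 (X.G true) * A2 (X.G true) := by
  ext ⟨c, d, e⟩ ⟨p, n, r⟩
  by_cases h : r = c ∧ p = e
  · obtain ⟨rfl, rfl⟩ := h
    by_cases hn : n = d
    · subst hn
      rw [mul3_single (n, r, p) (n, p, r), mul3_single (r, p, n) (p, r, n)]
      · simp only [A1, A2, Matrix.of_apply, if_true, X.G_swap]; ring
      all_goals
        rintro ⟨u1, u2, u3⟩ ⟨w1, w2, w3⟩ h1 h2 h3
        simp only [Prod.mk.injEq]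
      · obtain ⟨a1, b1⟩ := A2_ne h1
        obtain ⟨a2, b2⟩ := A1_ne h2
        obtain ⟨a3, b3⟩ := A2_ne h3
        simp only at a1 a2 a3 b1 b2 b3
        rcases X.triT b1 with h1 | h1 <;> rcases X.triT b2 with h2 | h2 <;>
          rcases X.triT b3 with h3 | h3 <;> refine ⟨⟨?_, ?_, ?_⟩, ?_, ?_, ?_⟩ <;> order
      · obtain ⟨a1, b1⟩ := A1_ne h1
        obtain ⟨a2, b2⟩ := A2_ne h2
        obtain ⟨a3, b3⟩ := A1_ne h3
        simp only at a1 a2 a3 b1 b2 b3
        rcases X.triT b1 with h1 | h1 <;> rcases X.triT b2 with h2 | h2 <;>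
          rcases X.triT b3 with h3 | h3 <;> refine ⟨⟨?_, ?_, ?_⟩, ?_, ?_, ?_⟩ <;> order
    · rw [mul3_zero, mul3_zero]
      all_goals rintro ⟨u1, u2, u3⟩ ⟨w1, w2, w3⟩ h1 h2 h3
      · obtain ⟨a1, b1⟩ := A2_ne h1
        obtain ⟨a2, b2⟩ := A1_ne h2
        obtain ⟨a3, b3⟩ := A2_ne h3
        simp only at a1 a2 a3 b1 b2 b3
        rcases X.triT b1 with h1 | h1 <;> rcases X.triT b2 with h2 | h2 <;>
          rcases X.triT b3 with h3 | h3 <;> order
      · obtain ⟨a1, b1⟩ := A1_ne h1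
        obtain ⟨a2, b2⟩ := A2_ne h2
        obtain ⟨a3, b3⟩ := A1_ne h3
        simp only at a1 a2 a3 b1 b2 b3
        rcases X.triT b1 with h1 | h1 <;> rcases X.triT b2 with h2 | h2 <;>
          rcases X.triT b3 with h3 | h3 <;> order
  by_cases h' : c ≤ r ∧ p ≤ e
  · have h0 := congrFun (congrFun X.yb_eq (c, d, e)) (p, n, r)
    have hne : c < r ∨ p < e := by
      by_contra hc
      rw [not_or] at hc
      exact h ⟨by order, by order⟩
    simp only [Matrix.sub_apply] at h0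
    rw [mul3_zero (A := A1 (X.G false)), mul3_zero (A := A2 (X.G false))] at h0
    · linear_combination h0
    all_goals rintro ⟨u1, u2, u3⟩ ⟨w1, w2, w3⟩ h1 h2 h3
    · obtain ⟨a1, b1⟩ := A2_ne h1
      obtain ⟨a2, b2⟩ := A1_ne h2
      obtain ⟨a3, b3⟩ := A2_ne h3
      simp only at a1 a2 a3 b1 b2 b3
      rcases X.triF b1 with h1 | h1 <;> rcases X.triF b2 with h2 | h2 <;>
        rcases X.triF b3 with h3 | h3 <;> rcases hne with h4 | h4 <;> order
    · obtain ⟨a1, b1⟩ := A1_ne h1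
      obtain ⟨a2, b2⟩ := A2_ne h2
      obtain ⟨a3, b3⟩ := A1_ne h3
      simp only at a1 a2 a3 b1 b2 b3
      rcases X.triF b1 with h1 | h1 <;> rcases X.triF b2 with h2 | h2 <;>
        rcases X.triF b3 with h3 | h3 <;> rcases hne with h4 | h4 <;> order
  · have hne : r < c ∨ e < p := by
      by_contra hc
      rw [not_or] at hc
      exact h' ⟨by order, by order⟩
    rw [mul3_zero, mul3_zero]
    all_goals rintro ⟨u1, u2, u3⟩ ⟨w1, w2, w3⟩ h1 h2 h3
    · obtain ⟨a1, b1⟩ := A2_ne h1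
      obtain ⟨a2, b2⟩ := A1_ne h2
      obtain ⟨a3, b3⟩ := A2_ne h3
      simp only at a1 a2 a3 b1 b2 b3
      rcases X.triT b1 with h1 | h1 <;> rcases X.triT b2 with h2 | h2 <;>
        rcases X.triT b3 with h3 | h3 <;> rcases hne with h4 | h4 <;> order
    · obtain ⟨a1, b1⟩ := A1_ne h1
      obtain ⟨a2, b2⟩ := A2_ne h2
      obtain ⟨a3, b3⟩ := A1_ne h3
      simp only at a1 a2 a3 b1 b2 b3
      rcases X.triT b1 with h1 | h1 <;> rcases X.triT b2 with h2 | h2 <;>
        rcases X.triT b3 with h3 | h3 <;> rcases hne with h4 | h4 <;> order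

theorem three (b : Bool) : A1 (X.G b) * A2 (X.G b) * A1 (X.G b) =
    A2 (X.G b) * A1 (X.G b) * A2 (X.G b) := by
  cases b
  · rw [← sub_eq_zero, ← X.yb_eq, X.threeT, sub_self]
  · exact X.threeT

theorem rg : X.vm.Rg id := ⟨X.pl, fun _ => rfl, X.two, X.three⟩

end Dat

end Pool.Agent.P.MP_7f6fde_gt.Ex
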